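import Pool.Agent.Helper97.AS3.Defs

/-!
# AS3-03 Bridge: the conditions in terms of Taylor coefficients and of the top coefficients

* `bad_iff`: `Bad (X - C a) A B` iff `LBad` of the Taylor coefficients at `a` (`(taylor a A).coeff 0 = A.eval a`, `coeff 1 = (derivative A).eval a`); `taylor a` is a ring automorphism which maps `X - C a` to `X`, `taylor a (dis A B) = dis (taylor a A) (taylor a B)`,
  and `X ^ k ∣ f` iff the coefficients below `k` vanish (`X_pow_dvd_iff`). The coefficients of `dis f g` at `0`, `1`, `2` are the three expressions (with the coefficients of `f`, `g` at `0`, `1`, `2`).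
* `two_iff`: the same.
* `badInf_iff`, `twoInf_iff`: for `deg A ≤ 4 n`, `deg B ≤ 6 n`, `n ≥ 1`: the coefficients of `dis A B` at `12 n`, `12 n - 1`, `12 n - 2` are the three expressions with `x_i = A.coeff (4 n - i)`, `y_i = B.coeff (6 n - i)` (e.g. `coeff_mul` for the top coefficients, or through `reverse`/`reflect`:
  `reflect (4 n) A` etc.); the degree of `dis A B` is at most `12 n`, so `natDegree + 2 ≤ 12 n` iff the two top coefficients vanish, and `natDegree + 2 = 12 n` iff moreover the third does not (`n ≥ 1`).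
-/

set_option autoImplicit false

open Polynomial

namespace Pool.Agent.Helper97.AS3

open Pool.Agent.Helper31.AR Pool.Agent.Helper97.AS Pool.Agent.Helper97.AS2

variable {F : Type} [Field F]

private theorem br_c0 (f g : F[X]) : (dis f g).coeff 0 =
    4 * f.coeff 0 ^ 3 + 27 * g.coeff 0 ^ 2 := by
  rw [dis, coeff_add, coeff_ofNat_mul, coeff_ofNat_mul, pow_succ f 2, sq, sq]
  simp only [mul_coeff_zero]
  ring

private theorem br_c1 (f g : F[X]) : (dis f g).coeff 1 =
    12 * f.coeff 0 ^ 2 * f.coeff 1 + 54 * g.coeff 0 * g.coeff 1 := by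
  rw [dis, coeff_add, coeff_ofNat_mul, coeff_ofNat_mul, pow_succ f 2, sq, sq]
  simp only [mul_coeff_one, mul_coeff_zero]
  ring

private theorem br_mul2 (f g : F[X]) : (f * g).coeff 2 =
    f.coeff 0 * g.coeff 2 + f.coeff 1 * g.coeff 1 + f.coeff 2 * g.coeff 0 := by
  rw [coeff_mul]
  have : Finset.HasAntidiagonal.antidiagonal 2 = {(0, 2), (1, 1), (2, 0)} := by decide
  rw [this]
  rw [Finset.sum_insert (by decide), Finset.sum_insert (by decide), Finset.sum_singleton]
  ring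

private theorem br_c2 (f g : F[X]) : (dis f g).coeff 2 =
    12 * f.coeff 0 ^ 2 * f.coeff 2 + 12 * f.coeff 0 * f.coeff 1 ^ 2 + 54 * g.coeff 0 * g.coeff 2 +
      27 * g.coeff 1 ^ 2 := by
  rw [dis, coeff_add, coeff_ofNat_mul, coeff_ofNat_mul, pow_succ f 2, sq, sq]
  simp only [br_mul2, mul_coeff_one, mul_coeff_zero]
  ring

private theorem br_taylor (a : F) (A B : F[X]) :
    taylor a (dis A B) = dis (taylor a A) (taylor a B) := by
  have h4 : (4 : F[X]).comp (X + C a) = 4 := ofNat_comp 4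
  have h27 : (27 : F[X]).comp (X + C a) = 27 := ofNat_comp 27
  simp only [dis, taylor_apply, add_comp, mul_comp, pow_comp, h4, h27]

private theorem br_dvd (a : F) (k : ℕ) (f : F[X]) :
    (X - C a) ^ k ∣ f ↔ ∀ d < k, (taylor a f).coeff d = 0 := by
  rw [X_sub_C_pow_dvd_iff, X_pow_dvd_iff, taylor_apply]

private theorem br_lt2 {P : ℕ → Prop} : (∀ d < 2, P d) ↔ P 0 ∧ P 1 := by
  constructor
  · intro h
    exact ⟨h 0 (by norm_num), h 1 (by norm_num)⟩
  · rintro ⟨h0, h1⟩ d hd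
    interval_cases d
    · exact h0
    · exact h1

private theorem br_lt3 {P : ℕ → Prop} : (∀ d < 3, P d) ↔ P 0 ∧ P 1 ∧ P 2 := by
  constructor
  · intro h
    exact ⟨h 0 (by norm_num), h 1 (by norm_num), h 2 (by norm_num)⟩
  · rintro ⟨h0, h1, h2⟩ d hd
    interval_cases d
    · exact h0
    · exact h1
    · exact h2

private theorem br_reflect {n : ℕ} {A B : F[X]} (hA : A.natDegree ≤ 4 * n)
    (hB : B.natDegree ≤ 6 * n) :
    reflect (12 * n) (dis A B) = dis (reflect (4 * n) A) (reflect (6 * n) B) := by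
  have e1 : 12 * n = 4 * n + (4 * n + 4 * n) := by ring
  have e2 : 12 * n = 6 * n + 6 * n := by ring
  have hA2 : (A * A).natDegree ≤ 4 * n + 4 * n :=
    natDegree_mul_le.trans (add_le_add hA hA)
  have h1 : reflect (12 * n) (A ^ 3) = (reflect (4 * n) A) ^ 3 := by
    have : A ^ 3 = A * (A * A) := by ring
    rw [this, e1, reflect_mul _ _ hA hA2, reflect_mul _ _ hA hA]
    ring
  have h2 : reflect (12 * n) (B ^ 2) = (reflect (6 * n) B) ^ 2 := by
    rw [sq, e2, reflect_mul _ _ hB hB]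
    ring
  have h4 : (4 : F[X]) = C (4 : F) := (map_ofNat C 4).symm
  have h27 : (27 : F[X]) = C (27 : F) := (map_ofNat C 27).symm
  rw [dis, dis, reflect_add, h4, h27, reflect_C_mul, reflect_C_mul, h1, h2]

private theorem br_top {N : ℕ} (f : F[X]) {i : ℕ} (hi : i ≤ N) :
    f.coeff (N - i) = (reflect N f).coeff i := by
  rw [coeff_reflect, revAt_le hi]

private theorem br_deg {n : ℕ} {A B : F[X]} (hA : A.natDegree ≤ 4 * n)
    (hB : B.natDegree ≤ 6 * n) : (dis A B).natDegree ≤ 12 * n := by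
  rw [dis]
  refine natDegree_add_le_of_degree_le ?_ ?_
  · have h4 : (4 : F[X]) = C (4 : F) := (map_ofNat C 4).symm
    rw [h4]
    refine (natDegree_C_mul_le _ _).trans (natDegree_pow_le.trans ?_)
    omega
  · have h27 : (27 : F[X]) = C (27 : F) := (map_ofNat C 27).symm
    rw [h27]
    refine (natDegree_C_mul_le _ _).trans (natDegree_pow_le.trans ?_)
    omega

private theorem br_deg2 {n : ℕ} (hn : 1 ≤ n) {f : F[X]} (hf : f.natDegree ≤ 12 * n) :
    f.natDegree + 2 ≤ 12 * n ↔ f.coeff (12 * n) = 0 ∧ f.coeff (12 * n - 1) = 0 := by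
  constructor
  · intro h
    exact ⟨coeff_eq_zero_of_natDegree_lt (by omega), coeff_eq_zero_of_natDegree_lt (by omega)⟩
  · rintro ⟨h0, h1⟩
    have h2 : f.natDegree ≤ 12 * n - 2 := by
      rw [natDegree_le_iff_coeff_eq_zero]
      intro N hN
      rcases Nat.lt_or_ge (12 * n) N with h | h
      · exact coeff_eq_zero_of_natDegree_lt (by omega)
      · have h3 : N = 12 * n ∨ N = 12 * n - 1 := by omega
        rcases h3 with rfl | rfl
        · exact h0
        · exact h1
    omega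

private theorem br_deg3 {n : ℕ} (hn : 1 ≤ n) {f : F[X]} (hf : f.natDegree ≤ 12 * n) :
    f.natDegree + 2 = 12 * n ↔ f.coeff (12 * n) = 0 ∧ f.coeff (12 * n - 1) = 0 ∧
      f.coeff (12 * n - 2) ≠ 0 := by
  constructor
  · intro h
    obtain ⟨h0, h1⟩ := (br_deg2 hn hf).1 h.le
    refine ⟨h0, h1, ?_⟩
    have h2 : f.natDegree = 12 * n - 2 := by omega
    rw [← h2, coeff_natDegree, Ne, leadingCoeff_eq_zero]
    rintro rfl
    rw [natDegree_zero] at h2
    omega
  · rintro ⟨h0, h1, h2⟩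
    have h3 := (br_deg2 hn hf).2 ⟨h0, h1⟩
    have h4 := le_natDegree_of_ne_zero h2
    omega

private theorem br_t0 {n : ℕ} {A B : F[X]} (hA : A.natDegree ≤ 4 * n)
    (hB : B.natDegree ≤ 6 * n) : (dis A B).coeff (12 * n) =
      4 * A.coeff (4 * n) ^ 3 + 27 * B.coeff (6 * n) ^ 2 := by
  have h1 := br_top (N := 12 * n) (dis A B) (Nat.zero_le _)
  have h2 := br_top (N := 4 * n) A (Nat.zero_le _)
  have h3 := br_top (N := 6 * n) B (Nat.zero_le _)
  rw [Nat.sub_zero] at h1 h2 h3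
  rw [h1, h2, h3, br_reflect hA hB, br_c0]

private theorem br_t1 {n : ℕ} (hn : 1 ≤ n) {A B : F[X]} (hA : A.natDegree ≤ 4 * n)
    (hB : B.natDegree ≤ 6 * n) : (dis A B).coeff (12 * n - 1) =
      12 * A.coeff (4 * n) ^ 2 * A.coeff (4 * n - 1) + 54 * B.coeff (6 * n) *
        B.coeff (6 * n - 1) := by
  have h1 := br_top (N := 12 * n) (dis A B) (show 1 ≤ 12 * n by omega)
  have h2 := br_top (N := 4 * n) A (Nat.zero_le _)
  have h3 := br_top (N := 6 * n) B (Nat.zero_le _)
  have h4 := br_top (N := 4 * n) A (show 1 ≤ 4 * n by omega)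
  have h5 := br_top (N := 6 * n) B (show 1 ≤ 6 * n by omega)
  rw [Nat.sub_zero] at h2 h3
  rw [h1, h2, h3, h4, h5, br_reflect hA hB, br_c1]

private theorem br_t2 {n : ℕ} (hn : 1 ≤ n) {A B : F[X]} (hA : A.natDegree ≤ 4 * n)
    (hB : B.natDegree ≤ 6 * n) : (dis A B).coeff (12 * n - 2) =
      12 * A.coeff (4 * n) ^ 2 * A.coeff (4 * n - 2) + 12 * A.coeff (4 * n) *
        A.coeff (4 * n - 1) ^ 2 + 54 * B.coeff (6 * n) * B.coeff (6 * n - 2) +
        27 * B.coeff (6 * n - 1) ^ 2 := by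
  have h1 := br_top (N := 12 * n) (dis A B) (show 2 ≤ 12 * n by omega)
  have h2 := br_top (N := 4 * n) A (Nat.zero_le _)
  have h3 := br_top (N := 6 * n) B (Nat.zero_le _)
  have h4 := br_top (N := 4 * n) A (show 1 ≤ 4 * n by omega)
  have h5 := br_top (N := 6 * n) B (show 1 ≤ 6 * n by omega)
  have h6 := br_top (N := 4 * n) A (show 2 ≤ 4 * n by omega)
  have h7 := br_top (N := 6 * n) B (show 2 ≤ 6 * n by omega)
  rw [Nat.sub_zero] at h2 h3
  rw [h1, h2, h3, h4, h5, h6, h7, br_reflect hA hB, br_c2]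

theorem bad_iff (a : F) (A B : F[X]) : Bad (X - C a) A B ↔
    LBad ((taylor a A).coeff 0) ((taylor a A).coeff 1) ((taylor a B).coeff 0)
      ((taylor a B).coeff 1) := by
  have h1 := br_dvd a 1 A
  rw [pow_one] at h1
  rw [Bad, LBad, br_dvd, br_dvd, h1, br_lt2, br_lt2, br_taylor, br_c0, br_c1, and_assoc]
  have h2 : (∀ d < 1, (taylor a A).coeff d = 0) ↔ (taylor a A).coeff 0 = 0 := by
    constructor
    · intro h
      exact h 0 (by norm_num)
    · intro h d hd
      have : d = 0 := by omega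
      rw [this]
      exact h
  rw [h2]

theorem two_iff (a : F) (A B : F[X]) : Two a A B ↔
    LTwo ((taylor a A).coeff 0) ((taylor a A).coeff 1) ((taylor a A).coeff 2)
      ((taylor a B).coeff 0) ((taylor a B).coeff 1) ((taylor a B).coeff 2) := by
  rw [Two, LTwo, br_dvd, br_dvd, br_lt2, br_lt3, br_taylor, br_c0, br_c1, br_c2,
    taylor_coeff_zero, taylor_coeff_zero]
  constructor
  · rintro ⟨h0, ⟨h1, h2⟩, h3⟩
    exact ⟨h0, h1, h2, fun h4 => h3 ⟨h1, h2, h4⟩⟩
  · rintro ⟨h0, h1, h2, h3⟩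
    exact ⟨h0, ⟨h1, h2⟩, fun h4 => h3 h4.2.2⟩

theorem badInf_iff {n : ℕ} (hn : 1 ≤ n) {A B : F[X]} (hA : A.natDegree ≤ 4 * n)
    (hB : B.natDegree ≤ 6 * n) : BadInf n A B ↔
    LBad (A.coeff (4 * n)) (A.coeff (4 * n - 1)) (B.coeff (6 * n)) (B.coeff (6 * n - 1)) := by
  rw [BadInf, LBad, br_deg2 hn (br_deg hA hB), br_t0 hA hB, br_t1 hn hA hB, and_assoc]

theorem twoInf_iff {n : ℕ} (hn : 1 ≤ n) {A B : F[X]} (hA : A.natDegree ≤ 4 * n)
    (hB : B.natDegree ≤ 6 * n) : TwoInf n A B ↔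
    LTwo (A.coeff (4 * n)) (A.coeff (4 * n - 1)) (A.coeff (4 * n - 2))
      (B.coeff (6 * n)) (B.coeff (6 * n - 1)) (B.coeff (6 * n - 2)) := by
  rw [TwoInf, LTwo, br_deg3 hn (br_deg hA hB), br_t0 hA hB, br_t1 hn hA hB, br_t2 hn hA hB]

end Pool.Agent.Helper97.AS3
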