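import Pool.Agent.Helper97.AS3.Defs
import Pool.Agent.Helper97.AS2.CondParity

/-!
# AS3-07 CondParity: the parity of the degree of the conductor in the full family

Compare `AS2/CondParity.lean` (copy the argument). `D = dis A B ≠ 0`, `deg D ≤ 12 n`. `natDegree D = ∑_v mult_v(D) deg v`. For a monic irreducible divisor `v` of `D` of odd degree with `¬ Bad v A B` the term of `v` in `condDeg` is `mult_v(D) deg v`; for `v` of even degree both are even.
* `cond_parity_fin`: `v = X - C a` with `Two a A B`: `mult = 2`, `v ∤ A`, so the term is `1` instead of `2`. Hence `condDeg A B ≡ natDegree D - 1` modulo `2` (`+ 1`). At infinity `¬ BadInf n A B`: `condInf n A B ≡ 12 n - natDegree D`: if `natDegree D = 12 n`: the coefficient of `D` at `12 n` is `4 a ^ 3 + 27 b ^ 2 ≠ 0`,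
  `condInf = 0`; if `natDegree D = 12 n - 1`: `4 a ^ 3 + 27 b ^ 2 = 0` and `a ≠ 0` (if `a = 0` then `b = 0`, `deg A ≤ 4 n - 1`, `deg B ≤ 6 n - 1`, `deg D ≤ 12 n - 2`): `condInf = 1`; if `natDegree D ≤ 12 n - 2`: `a = 0`, and (`b ≠ 0` or `B.coeff (6 n - 1) ≠ 0`); `b = 0` since the coefficient at `12 n` vanishes; so
  `deg B = 6 n - 1`, `deg A ≤ 4 n - 1`, `natDegree D = 12 n - 2`, `condInf = 2`. Total: odd.
* `cond_parity_inf`: `condDeg A B ≡ natDegree D = 12 n - 2`, even, and `condInf = 1` (`a ≠ 0`, the coefficient at `12 n` is `0`).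
-/

set_option autoImplicit false

open Polynomial

namespace Pool.Agent.Helper97.AS3

open Pool.Agent.Helper31.AR Pool.Agent.Helper97.AS Pool.Agent.Helper97.AS2

variable {F : Type} [Field F] [Fintype F]

/-- The degree is the sum of the degrees of the prime factors with multiplicity. -/
private theorem natDegree_eq_sum3 {D : F[X]} (hD : D ≠ 0) : by
    classical exact D.natDegree =
      ∑ v ∈ (dv D).filter (fun v => Irreducible v),
        (UniqueFactorizationMonoid.normalizedFactors D).count v * v.natDegree := by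
  classical
  have h1 : (UniqueFactorizationMonoid.normalizedFactors D).toFinset =
      (dv D).filter (fun v => Irreducible v) := by
    ext v
    rw [Multiset.mem_toFinset, Finset.mem_filter, mem_dv hD,
      Polynomial.mem_normalizedFactors_iff hD]
    tauto
  have h2 : D.natDegree = (UniqueFactorizationMonoid.normalizedFactors D).prod.natDegree := by
    have := UniqueFactorizationMonoid.prod_normalizedFactors hD
    exact (natDegree_eq_of_degree_eq (degree_eq_degree_of_associated this)).symm
  rw [h2, natDegree_multiset_prod_of_monic, Finset.sum_multiset_map_count, h1]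
  · simp only [smul_eq_mul]
  · intro f hf
    exact ((Polynomial.mem_normalizedFactors_iff hD).1 hf).2.1

private theorem count_eq3 (h3 : (3 : F) ≠ 0) {A B v : F[X]} (hvm : v.Monic)
    (hvi : Irreducible v) (hvd : v ∣ dis A B) (hb : ¬ Bad v A B) : by
    classical exact (UniqueFactorizationMonoid.normalizedFactors (dis A B)).count v =
          (if v ∣ A then 2 else 1) := by
  classical
  have h27 : (27 : F) ≠ 0 := by
    have : (27 : F) = 3 * 3 * 3 := by norm_num
    rw [this]; exact mul_ne_zero (mul_ne_zero h3 h3) h3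
  have u27 : IsUnit (27 : F[X]) := by
    have : (27 : F[X]) = C (27 : F) := by rw [C_ofNat]
    rw [this]
    exact isUnit_C.2 (isUnit_iff_ne_zero.2 h27)
  have hvp : Prime v := hvi.prime
  by_cases hv2 : v ^ 2 ∣ dis A B
  · have hvA : v ∣ A := by
      by_contra hvA
      exact hb ⟨hv2, fun h => absurd h hvA⟩
    have hvB : ¬ v ^ 2 ∣ B := by
      intro h
      exact hb ⟨hv2, fun _ => h⟩
    rw [if_pos hvA]
    refine UniqueFactorizationMonoid.count_normalizedFactors_eq hvi hvm.normalize_eq_self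
      hv2 ?_
    intro h
    apply hvB
    have hA3 : v ^ 3 ∣ 4 * A ^ 3 := Dvd.dvd.mul_left (pow_dvd_pow_of_dvd hvA 3) _
    have h5 : v ^ 3 ∣ 27 * B ^ 2 := by
      have := dvd_sub h hA3
      unfold dis at this
      rwa [add_sub_cancel_left] at this
    have h6 : v ^ 3 ∣ B ^ 2 := (u27.dvd_mul_left).1 h5
    have h7 : v ∣ B := hvp.dvd_of_dvd_pow (dvd_trans (dvd_pow_self v (by norm_num)) h6)
    obtain ⟨b, rfl⟩ := h7
    have h8 : v ∣ b ^ 2 := by
      have : v ^ 2 * v ∣ v ^ 2 * b ^ 2 := by
        have e1 : v ^ 2 * v = v ^ 3 := by ring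
        have e2 : v ^ 2 * b ^ 2 = (v * b) ^ 2 := by ring
        rw [e1, e2]; exact h6
      exact (mul_dvd_mul_iff_left (pow_ne_zero 2 hvp.ne_zero)).1 this
    have h9 : v ∣ b := hvp.dvd_of_dvd_pow h8
    rw [pow_two]
    exact mul_dvd_mul_left v h9
  · have hvA : ¬ v ∣ A := by
      intro hvA
      apply hv2
      have hA3 : v ^ 2 ∣ 4 * A ^ 3 :=
        Dvd.dvd.mul_left (dvd_trans (pow_dvd_pow v (by norm_num)) (pow_dvd_pow_of_dvd hvA 3)) _
      have h5 : v ∣ 27 * B ^ 2 := by
        have := dvd_sub hvd (dvd_trans (dvd_pow_self v (by norm_num)) hA3)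
        unfold dis at this
        rwa [add_sub_cancel_left] at this
      have h6 : v ∣ B ^ 2 := (u27.dvd_mul_left).1 h5
      have h7 : v ∣ B := hvp.dvd_of_dvd_pow h6
      unfold dis
      exact dvd_add hA3 (Dvd.dvd.mul_left (pow_dvd_pow_of_dvd h7 2) _)
    rw [if_neg hvA]
    refine UniqueFactorizationMonoid.count_normalizedFactors_eq hvi hvm.normalize_eq_self
      ?_ hv2
    rwa [pow_one]

private theorem term_eq3 (h3 : (3 : F) ≠ 0) {A B v : F[X]} (hvm : v.Monic)
    (hvi : Irreducible v) (hvd : v ∣ dis A B) (hb : Odd v.natDegree → ¬ Bad v A B) : by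
    classical exact (((if v ∣ A then 2 else 1) * v.natDegree : ℕ) : ZMod 2) =
      (((UniqueFactorizationMonoid.normalizedFactors (dis A B)).count v * v.natDegree : ℕ) :
        ZMod 2) := by
  classical
  rcases Nat.even_or_odd v.natDegree with he | ho
  · have : ((v.natDegree : ℕ) : ZMod 2) = 0 := (ZMod.natCast_eq_zero_iff _ _).2 he.two_dvd
    rw [Nat.cast_mul, Nat.cast_mul, this, mul_zero, mul_zero]
  · have h := count_eq3 h3 hvm hvi hvd (hb ho)
    rw [h]

private theorem odd_deg_cases {v : F[X]} (hvm : v.Monic) (ho : Odd v.natDegree) :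
    (∃ b : F, v = X - C b) ∨ 3 ≤ v.natDegree := by
  obtain ⟨k, hk⟩ := ho
  rcases Nat.eq_zero_or_pos k with h0 | h0
  · left
    have h1 : v.natDegree = 1 := by omega
    refine ⟨- v.coeff 0, ?_⟩
    rw [C_neg, sub_neg_eq_add]
    exact hvm.eq_X_add_C h1
  · right
    omega

private theorem dis_coeff_top {n : ℕ} {A B : F[X]}
    (hA : A.natDegree ≤ 4 * n) (hB : B.natDegree ≤ 6 * n) :
    (dis A B).coeff (12 * n) = 4 * A.coeff (4 * n) ^ 3 + 27 * B.coeff (6 * n) ^ 2 := by
  have e4 : (4 : F[X]) = C (4 : F) := by rw [C_ofNat]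
  have e27 : (27 : F[X]) = C (27 : F) := by rw [C_ofNat]
  have h1 : (A ^ 3).coeff (3 * (4 * n)) = A.coeff (4 * n) ^ 3 := coeff_pow_of_natDegree_le hA
  have h2 : (B ^ 2).coeff (2 * (6 * n)) = B.coeff (6 * n) ^ 2 := coeff_pow_of_natDegree_le hB
  rw [show 3 * (4 * n) = 12 * n by ring] at h1
  rw [show 2 * (6 * n) = 12 * n by ring] at h2
  unfold dis
  rw [coeff_add, e4, e27, coeff_C_mul, coeff_C_mul, h1, h2]

private theorem dis_natDegree_le {n m : ℕ} {A B : F[X]}
    (hA : 3 * A.natDegree ≤ m) (hB : 2 * B.natDegree ≤ m) : (dis A B).natDegree ≤ m := by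
  have e4 : (4 : F[X]) = C (4 : F) := by rw [C_ofNat]
  have e27 : (27 : F[X]) = C (27 : F) := by rw [C_ofNat]
  unfold dis
  refine (natDegree_add_le _ _).trans (max_le ?_ ?_)
  · rw [e4]
    refine (natDegree_C_mul_le _ _).trans (natDegree_pow_le.trans hA)
  · rw [e27]
    refine (natDegree_C_mul_le _ _).trans (natDegree_pow_le.trans hB)

private theorem natDegree_le_pred {m : ℕ} (hm : 1 ≤ m) {A : F[X]} (h : A.natDegree ≤ m)
    (h0 : A.coeff m = 0) : A.natDegree ≤ m - 1 := by
  by_contra hcon
  have h1 : A.natDegree = m := by omega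
  rw [← h1] at h0
  have h2 : A = 0 := leadingCoeff_eq_zero.mp h0
  rw [h2, natDegree_zero] at h1
  omega

theorem cond_parity_fin (h2 : (2 : F) ≠ 0) (h3 : (3 : F) ≠ 0) {n : ℕ} (hn : 1 ≤ n) {A B : F[X]}
    (hA : A.natDegree ≤ 4 * n) (hB : B.natDegree ≤ 6 * n) (hdis : dis A B ≠ 0) {a : F}
    (ha : Two a A B) (hoth : ∀ b : F, b ≠ a → ¬ Bad (X - C b) A B) (hinf : ¬ BadInf n A B)
    (hbad : ∀ v : F[X], v.Monic → Irreducible v → Odd v.natDegree → 3 ≤ v.natDegree →
      ¬ Bad v A B) : Odd (condDeg A B + condInf n A B) := by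
  classical
  have h27 : (27 : F) ≠ 0 := by
    have : (27 : F) = 3 * 3 * 3 := by norm_num
    rw [this]; exact mul_ne_zero (mul_ne_zero h3 h3) h3
  obtain ⟨w, hw⟩ : ∃ w : F[X], w = X - C a := ⟨_, rfl⟩
  have hwm : w.Monic := by rw [hw]; exact monic_X_sub_C a
  have hwi : Irreducible w := by rw [hw]; exact irreducible_X_sub_C a
  have hwdeg : w.natDegree = 1 := by rw [hw]; exact natDegree_X_sub_C a
  obtain ⟨hta, htb, htc⟩ := ha
  rw [← hw] at htb htc
  have hwA : ¬ w ∣ A := by
    rw [hw, dvd_iff_isRoot]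
    exact hta
  have hwd : w ∣ dis A B := dvd_trans (dvd_pow_self w (by norm_num)) htb
  have hwS : w ∈ (dv (dis A B)).filter (fun v => Irreducible v) := by
    rw [Finset.mem_filter, mem_dv hdis]
    exact ⟨⟨hwm, hwd⟩, hwi⟩
  have hwc : (UniqueFactorizationMonoid.normalizedFactors (dis A B)).count w = 2 :=
    UniqueFactorizationMonoid.count_normalizedFactors_eq hwi hwm.normalize_eq_self htb htc
  -- condDeg + 1 = natDegree modulo 2
  have key : ((condDeg A B : ℕ) : ZMod 2) + 1 = (((dis A B).natDegree : ℕ) : ZMod 2) := by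
    rw [natDegree_eq_sum3 hdis]
    unfold condDeg
    rw [← Finset.add_sum_erase _ _ hwS]
    have hsplit : ∀ f : F[X] → ℕ, ∑ v ∈ (dv (dis A B)).filter (fun v => Irreducible v), f v =
        f w + ∑ v ∈ ((dv (dis A B)).filter (fun v => Irreducible v)).erase w, f v :=
      fun f => (Finset.add_sum_erase _ _ hwS).symm
    rw [hsplit (fun v => (UniqueFactorizationMonoid.normalizedFactors (dis A B)).count v *
      v.natDegree)]
    rw [if_neg hwA, hwc, hwdeg, Nat.cast_add, Nat.cast_add, Nat.cast_sum, Nat.cast_sum]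
    have hrest : ∑ v ∈ ((dv (dis A B)).filter (fun v => Irreducible v)).erase w,
        (((if v ∣ A then 2 else 1) * v.natDegree : ℕ) : ZMod 2) =
        ∑ v ∈ ((dv (dis A B)).filter (fun v => Irreducible v)).erase w,
        (((UniqueFactorizationMonoid.normalizedFactors (dis A B)).count v * v.natDegree : ℕ) :
          ZMod 2) := by
      apply Finset.sum_congr rfl
      intro v hv
      obtain ⟨hvw, hv⟩ := Finset.mem_erase.mp hv
      rw [Finset.mem_filter, mem_dv hdis] at hv
      obtain ⟨⟨hvm, hvd⟩, hvi⟩ := hv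
      apply term_eq3 h3 hvm hvi hvd
      intro ho
      rcases odd_deg_cases hvm ho with ⟨b, hb⟩ | h
      · rw [hb]
        apply hoth b
        rintro rfl
        exact hvw (hb.trans hw.symm)
      · exact hbad v hvm hvi ho h
    rw [hrest]
    have h : ((2 : ℕ) : ZMod 2) = 0 := by decide
    have h' : ((1 : ℕ) : ZMod 2) = 1 := by decide
    push_cast
    have h'' : (2 : ZMod 2) = 0 := by decide
    rw [h'']
    have h11 : (1 : ZMod 2) * 1 + 1 = 0 * 1 := by decide
    linear_combination h11
  have htop := dis_coeff_top hA hB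
  have hle : (dis A B).natDegree ≤ 12 * n := dis_natDegree_le (n := n) (by omega) (by omega)
  have h12 : ((12 : ℕ) : ZMod 2) = 0 := by decide
  rw [← ZMod.natCast_eq_one_iff_odd, Nat.cast_add]
  have hk2 : ((condDeg A B : ℕ) : ZMod 2) = (((dis A B).natDegree : ℕ) : ZMod 2) + 1 := by
    have h2' : (1 : ZMod 2) + 1 = 0 := by decide
    linear_combination key - h2'
  rw [hk2]
  rcases Nat.eq_or_lt_of_le hle with he | hlt
  · -- good reduction at infinity
    have hne : 4 * A.coeff (4 * n) ^ 3 + 27 * B.coeff (6 * n) ^ 2 ≠ 0 := by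
      rw [← htop, ← he]
      exact fun h => hdis (leadingCoeff_eq_zero.mp h)
    have hc : condInf n A B = 0 := by
      unfold condInf
      rw [if_pos hne]
    rw [hc, he, Nat.cast_mul, h12]
    simp
  · have hz : 4 * A.coeff (4 * n) ^ 3 + 27 * B.coeff (6 * n) ^ 2 = 0 := by
      rw [← htop]
      exact coeff_eq_zero_of_natDegree_lt hlt
    have hab : A.coeff (4 * n) = 0 → B.coeff (6 * n) = 0 := by
      intro h0
      rw [h0] at hz
      have h1 : (27 : F) * B.coeff (6 * n) ^ 2 = 0 := by
        linear_combination hz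
      rcases mul_eq_zero.mp h1 with h | h
      · exact absurd h h27
      · exact pow_eq_zero_iff (two_ne_zero) |>.mp h
    by_cases ha0 : A.coeff (4 * n) = 0
    · -- additive
      have hb0 := hab ha0
      have hA' := natDegree_le_pred (by omega) hA ha0
      have hB' := natDegree_le_pred (by omega) hB hb0
      have hle2 : (dis A B).natDegree ≤ 12 * n - 2 :=
        dis_natDegree_le (n := n) (by omega) (by omega)
      have hb1 : B.coeff (6 * n - 1) ≠ 0 := by
        intro h0
        exact hinf ⟨by omega, fun _ => ⟨hb0, h0⟩⟩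
      have hc2 : (dis A B).coeff (12 * n - 2) = 27 * B.coeff (6 * n - 1) ^ 2 := by
        have e4 : (4 : F[X]) = C (4 : F) := by rw [C_ofNat]
        have e27 : (27 : F[X]) = C (27 : F) := by rw [C_ofNat]
        have h2 : (B ^ 2).coeff (2 * (6 * n - 1)) = B.coeff (6 * n - 1) ^ 2 :=
          coeff_pow_of_natDegree_le hB'
        rw [show 2 * (6 * n - 1) = 12 * n - 2 by omega] at h2
        have h1 : (A ^ 3).coeff (12 * n - 2) = 0 := by
          apply coeff_eq_zero_of_natDegree_lt
          refine lt_of_le_of_lt natDegree_pow_le ?_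
          omega
        unfold dis
        rw [coeff_add, e4, e27, coeff_C_mul, coeff_C_mul, h1, h2]
        ring
      have hne2 : (dis A B).coeff (12 * n - 2) ≠ 0 := by
        rw [hc2]
        exact mul_ne_zero h27 (pow_ne_zero 2 hb1)
      have hge := le_natDegree_of_ne_zero hne2
      have hdeg : (dis A B).natDegree = 2 * (6 * n - 1) := by omega
      have hc : condInf n A B = 2 := by
        unfold condInf
        rw [if_neg (by rw [hz]; simp), if_neg (by rw [ha0]; simp)]
      have h2' : ((2 : ℕ) : ZMod 2) = 0 := by decide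
      rw [hc, hdeg, Nat.cast_mul, h2']
      simp
    · have hc : condInf n A B = 1 := by
        unfold condInf
        rw [if_neg (by rw [hz]; simp), if_pos ha0]
      have hdeg : (dis A B).natDegree = 12 * n - 1 := by
        by_contra hcon
        exact hinf ⟨by omega, fun h => absurd h ha0⟩
      have hdeg' : (dis A B).natDegree + 1 = 12 * n := by omega
      have hcast : (((dis A B).natDegree : ℕ) : ZMod 2) + 1 = 0 := by
        have := congrArg (fun k : ℕ => (k : ZMod 2)) hdeg'
        rw [Nat.cast_add, Nat.cast_mul, h12, zero_mul, Nat.cast_one] at this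
        exact this
      rw [hc, hcast]
      simp

theorem cond_parity_inf (h2 : (2 : F) ≠ 0) (h3 : (3 : F) ≠ 0) {n : ℕ} (hn : 1 ≤ n) {A B : F[X]}
    (hA : A.natDegree ≤ 4 * n) (hB : B.natDegree ≤ 6 * n) (hdis : dis A B ≠ 0)
    (ha : TwoInf n A B) (hoth : ∀ b : F, ¬ Bad (X - C b) A B)
    (hbad : ∀ v : F[X], v.Monic → Irreducible v → Odd v.natDegree → 3 ≤ v.natDegree →
      ¬ Bad v A B) : Odd (condDeg A B + condInf n A B) := by
  classical
  have key : ((condDeg A B : ℕ) : ZMod 2) = (((dis A B).natDegree : ℕ) : ZMod 2) := by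
    rw [natDegree_eq_sum3 hdis]
    unfold condDeg
    rw [Nat.cast_sum, Nat.cast_sum]
    refine Finset.sum_congr (by congr) ?_
    intro v hv
    rw [Finset.mem_filter, mem_dv hdis] at hv
    obtain ⟨⟨hvm, hvd⟩, hvi⟩ := hv
    apply term_eq3 h3 hvm hvi hvd
    intro ho
    rcases odd_deg_cases hvm ho with ⟨b, hb⟩ | h
    · rw [hb]
      exact hoth b
    · exact hbad v hvm hvi ho h
  obtain ⟨ha0, hdeg⟩ := ha
  have htop := dis_coeff_top hA hB
  have hz : 4 * A.coeff (4 * n) ^ 3 + 27 * B.coeff (6 * n) ^ 2 = 0 := by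
    rw [← htop]
    exact coeff_eq_zero_of_natDegree_lt (by omega)
  have hc : condInf n A B = 1 := by
    unfold condInf
    rw [if_neg (by rw [hz]; simp), if_pos ha0]
  have hdeg' : (dis A B).natDegree = 2 * (6 * n - 1) := by omega
  have h2' : ((2 : ℕ) : ZMod 2) = 0 := by decide
  rw [← ZMod.natCast_eq_one_iff_odd, Nat.cast_add, key, hc, hdeg', Nat.cast_mul, h2']
  simp

end Pool.Agent.Helper97.AS3
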