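import Pool.Agent.Helper97.AS3.Defs

/-!
# AS3-02 LCount: local counts

* `card_not_LBad`: at most `q ^ 2` of the `q ^ 4` quadruples satisfy `LBad` (see `AS2/HermiteLocal.lean`): `x₀ ≠ 0`: `x₀ = - 3 c ^ 2`, `y₀ = 2 c ^ 3` with `c = - 3 y₀ / (2 x₀) ≠ 0` (`q - 1` pairs), `y₁` determined by `x₁`: `(q - 1) q`; `x₀ = 0`: `y₀ = y₁ = 0`: `q`.
* `card_LTwo`: the injective map `(c, x₁, x₂, z) ↦ (- 3 c ^ 2, x₁, x₂, 2 c ^ 3, y₁, y₂)` for `c ≠ 0`, `z ≠ 0`, where `y₁` is the solution of the linear equation and `y₂` is such that the last expression is `z` (coefficient `54 y₀ = 108 c ^ 3 ≠ 0`): `(q - 1) q q (q - 1)` elements.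
-/

set_option autoImplicit false

open Polynomial

namespace Pool.Agent.Helper97.AS3

variable {F : Type} [Field F] [Fintype F]

omit [Fintype F] in
theorem lc_six (h2 : (2 : F) ≠ 0) (h3 : (3 : F) ≠ 0) : (108 : F) ≠ 0 := by
  have : (108 : F) = 2 * 2 * (3 * 3 * 3) := by norm_num
  rw [this]
  exact mul_ne_zero (mul_ne_zero h2 h2) (mul_ne_zero (mul_ne_zero h3 h3) h3)

omit [Fintype F] in
theorem lc_param (h2 : (2 : F) ≠ 0) (h3 : (3 : F) ≠ 0) {x₀ x₁ y₀ y₁ : F} (h : LBad x₀ x₁ y₀ y₁) :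
    ∃ c : F, x₀ = -3 * c ^ 2 ∧ y₀ = 2 * c ^ 3 ∧ y₁ = -c * x₁ := by
  obtain ⟨e1, e2, e3⟩ := h
  by_cases hx : x₀ = 0
  · obtain ⟨hy0, hy1⟩ := e3 hx
    exact ⟨0, by rw [hx]; ring, by rw [hy0]; ring, by rw [hy1]; ring⟩
  · obtain ⟨c, hc⟩ : ∃ c, c = -3 * y₀ / (2 * x₀) := ⟨_, rfl⟩
    have hx2 : 2 * x₀ ≠ 0 := mul_ne_zero h2 hx
    have hc1 : 2 * x₀ * c = -3 * y₀ := by rw [hc]; field_simp
    have hc2 : x₀ = -3 * c ^ 2 := by
      have h4 : (2 * x₀) ^ 2 * (x₀ + 3 * c ^ 2) = 0 := by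
        linear_combination e1 + 3 * (2 * x₀ * c - 3 * y₀) * hc1
      have h5 := (mul_eq_zero.1 h4).resolve_left (pow_ne_zero _ hx2)
      linear_combination h5
    have hc3 : y₀ = 2 * c ^ 3 := by
      have h4 : 3 * (y₀ - 2 * c ^ 3) = 0 := by
        linear_combination hc1 - 2 * c * hc2
      have h5 := (mul_eq_zero.1 h4).resolve_left h3
      linear_combination h5
    have hc0 : c ≠ 0 := by
      rintro rfl
      apply hx
      rw [hc2]
      ring
    refine ⟨c, hc2, hc3, ?_⟩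
    have h4 : 108 * c ^ 3 * (y₁ + c * x₁) = 0 := by
      rw [hc2, hc3] at e2
      linear_combination e2
    have h5 := (mul_eq_zero.1 h4).resolve_left (mul_ne_zero (lc_six h2 h3) (pow_ne_zero _ hc0))
    linear_combination h5

open Classical in
theorem card_not_LBad (h2 : (2 : F) ≠ 0) (h3 : (3 : F) ≠ 0) :
    Fintype.card F ^ 4 - Fintype.card F ^ 2 ≤ ((Finset.univ : Finset ((F × F) × (F × F))).filter
      (fun z => ¬ LBad z.1.1 z.1.2 z.2.1 z.2.2)).card := by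
  have e1 := Finset.card_filter_add_card_filter_not
    (s := (Finset.univ : Finset ((F × F) × (F × F)))) (fun z => LBad z.1.1 z.1.2 z.2.1 z.2.2)
  have e2 : ((Finset.univ : Finset ((F × F) × (F × F))).filter
      (fun z => LBad z.1.1 z.1.2 z.2.1 z.2.2)).card ≤ Fintype.card F ^ 2 := by
    have f1 : (Finset.univ : Finset ((F × F) × (F × F))).filter
        (fun z => LBad z.1.1 z.1.2 z.2.1 z.2.2) ⊆
        (Finset.univ : Finset (F × F)).image
          (fun p => ((-3 * p.1 ^ 2, p.2), (2 * p.1 ^ 3, -p.1 * p.2))) := by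
      rintro ⟨⟨x₀, x₁⟩, ⟨y₀, y₁⟩⟩ hz
      rw [Finset.mem_filter] at hz
      obtain ⟨c, hc1, hc2, hc3⟩ := lc_param h2 h3 hz.2
      simp only at hc1 hc2 hc3
      rw [Finset.mem_image]
      exact ⟨(c, x₁), Finset.mem_univ _, by rw [hc1, hc2, hc3]⟩
    refine (Finset.card_le_card f1).trans (Finset.card_image_le.trans ?_)
    rw [Finset.card_univ, Fintype.card_prod, sq]
  have e3 : (Finset.univ : Finset ((F × F) × (F × F))).card = Fintype.card F ^ 4 := by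
    rw [Finset.card_univ, Fintype.card_prod, Fintype.card_prod]
    ring
  omega

open Classical in
theorem card_LTwo (h2 : (2 : F) ≠ 0) (h3 : (3 : F) ≠ 0) :
    Fintype.card F ^ 2 * (Fintype.card F - 1) ^ 2 ≤
      ((Finset.univ : Finset ((F × F × F) × (F × F × F))).filter
        (fun z => LTwo z.1.1 z.1.2.1 z.1.2.2 z.2.1 z.2.2.1 z.2.2.2)).card := by
  have h108 := lc_six h2 h3
  obtain ⟨φ, hφ⟩ : ∃ φ : F × F × F × F → (F × F × F) × (F × F × F), φ = fun p =>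
      ((-3 * p.1 ^ 2, p.2.1, p.2.2.1), (2 * p.1 ^ 3, -p.1 * p.2.1,
        (p.2.2.2 - 12 * (-3 * p.1 ^ 2) ^ 2 * p.2.2.1 - 12 * (-3 * p.1 ^ 2) * p.2.1 ^ 2 -
          27 * (-p.1 * p.2.1) ^ 2) / (108 * p.1 ^ 3))) := ⟨_, rfl⟩
  have e1 : ((Finset.univ.erase (0 : F)) ×ˢ (Finset.univ : Finset F) ×ˢ (Finset.univ : Finset F) ×ˢ
      (Finset.univ.erase (0 : F))).card = Fintype.card F ^ 2 * (Fintype.card F - 1) ^ 2 := by
    rw [Finset.card_product, Finset.card_product, Finset.card_product,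
      Finset.card_erase_of_mem (Finset.mem_univ _), Finset.card_univ]
    ring
  rw [← e1]
  refine Finset.card_le_card_of_injOn φ ?_ ?_
  · rintro ⟨c, x₁, x₂, z⟩ hp
    simp only [Finset.coe_product, Set.mem_prod, Finset.mem_coe, Finset.mem_erase] at hp
    obtain ⟨⟨hc, _⟩, _, _, hz, _⟩ := hp
    have hc3 : 108 * c ^ 3 ≠ 0 := mul_ne_zero h108 (pow_ne_zero _ hc)
    simp only [Finset.coe_filter, Finset.mem_univ, true_and, Set.mem_ofPred_eq, hφ]
    refine ⟨?_, by ring, by ring, ?_⟩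
    · exact mul_ne_zero (neg_ne_zero.mpr h3) (pow_ne_zero _ hc)
    · have : 12 * (-3 * c ^ 2) ^ 2 * x₂ + 12 * (-3 * c ^ 2) * x₁ ^ 2 + 54 * (2 * c ^ 3) *
          ((z - 12 * (-3 * c ^ 2) ^ 2 * x₂ - 12 * (-3 * c ^ 2) * x₁ ^ 2 -
          27 * (-c * x₁) ^ 2) / (108 * c ^ 3)) + 27 * (-c * x₁) ^ 2 = z := by
        field_simp
        ring
      rw [this]
      exact hz
  · rintro ⟨c, x₁, x₂, z⟩ hp ⟨c', x₁', x₂', z'⟩ hp' h
    simp only [Finset.coe_product, Set.mem_prod, Finset.mem_coe, Finset.mem_erase] at hp hp'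
    obtain ⟨⟨hc, _⟩, _, _, hz, _⟩ := hp
    obtain ⟨⟨hc', _⟩, _, _, hz', _⟩ := hp'
    simp only [hφ, Prod.mk.injEq] at h
    obtain ⟨⟨h1, h4, h5⟩, h6, _, h8⟩ := h
    subst h4
    subst h5
    have k1 : c ^ 2 = c' ^ 2 := mul_left_cancel₀ (neg_ne_zero.mpr h3) h1
    have k2 : c ^ 3 = c' ^ 3 := mul_left_cancel₀ h2 h6
    have k3 : c = c' := by
      have h9 : c ^ 2 * c = c ^ 2 * c' := by
        calc c ^ 2 * c = c ^ 3 := by ring
          _ = c' ^ 3 := k2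
          _ = c' ^ 2 * c' := by ring
          _ = c ^ 2 * c' := by rw [k1]
      exact mul_left_cancel₀ (pow_ne_zero _ hc) h9
    subst k3
    have hc3 : 108 * c ^ 3 ≠ 0 := mul_ne_zero h108 (pow_ne_zero _ hc)
    have h10 := (div_left_inj' hc3).1 h8
    have h11 : z = z' := by linear_combination h10
    rw [h11]

end Pool.Agent.Helper97.AS3
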