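import Pool.Agent.Helper97.AS3.Equi
import Pool.Agent.Helper97.AS3.LCount
import Pool.Agent.Helper97.AS3.Bridge
import Pool.Agent.Helper97.AS2.HermiteLocal

/-!
# AS3-06 InfCount: the pairs with `I_2` exactly at infinity

`M = (∏_b (X - C b)) ^ 2`, monic of degree `2 q`, `4 n + 1 ≥ 2 q + 3`. For every `(r, s)` counted by `hermite_local` and every sextuple with `LTwo` (`card_LTwo`) there are `q ^ (4 n + 1 - 2 q - 3)` polynomials `A` with residue `r` and the three top coefficients `x₀`, `x₁`, `x₂` (at `4 n`, `4 n - 1`, `4 n - 2`) and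
`q ^ (6 n + 1 - 2 q - 3)` polynomials `B` (`card_data_eq` with `k = 3`). All these pairs are different, belong to the box and satisfy the conditions (`Bad (X - C b)` depends only on the residues modulo `M`; `twoInf_iff`). The number is at least
`q ^ 2 (q - 1) ^ 2 (q ^ 4 - q ^ 2) ^ q q ^ (10 n + 2 - (4 q + 6)) = (q - 1) ^ 2 / q ^ 4 (1 - 1 / q ^ 2) ^ q q ^ (10 n + 2)`.
-/

set_option autoImplicit false

open Polynomial

namespace Pool.Agent.Helper97.AS3

open Pool.Agent.Helper31.AR Pool.Agent.Helper97.AS Pool.Agent.Helper97.AS2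

variable {F : Type} [Field F] [Fintype F]

private theorem ic_bad {F : Type} [Field F] {v A A' B B' : F[X]} (hA : v ^ 2 ∣ A - A')
    (hB : v ^ 2 ∣ B - B') (h : Bad v A B) : Bad v A' B' := by
  obtain ⟨h1, h2⟩ := h
  have hv : v ∣ A - A' := (dvd_pow_self v two_ne_zero).trans hA
  refine ⟨?_, ?_⟩
  · have e : dis A' B' = dis A B - (4 * ((A - A') * (A ^ 2 + A * A' + A' ^ 2)) +
        27 * ((B - B') * (B + B'))) := by
      unfold dis
      ring
    rw [e]
    exact dvd_sub h1 (dvd_add ((hA.mul_right _).mul_left _) ((hB.mul_right _).mul_left _))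
  · intro h3
    have h4 : v ∣ A := by
      have e : A = A' + (A - A') := by ring
      rw [e]
      exact dvd_add h3 hv
    have e : B' = B - (B - B') := by ring
    rw [e]
    exact dvd_sub (h2 h4) hB

omit [Fintype F] in
private theorem ic_mod {M A r : F[X]} (hM : M.Monic) (hr : r.degree < M.degree) (h : M ∣ A - r) :
    A %ₘ M = r := by
  have h1 := (modByMonic_eq_zero_iff_dvd hM).2 h
  rw [sub_modByMonic, (modByMonic_eq_self_iff hM).2 hr] at h1
  exact sub_eq_zero.1 h1

/-- the residues and the top coefficients -/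
private noncomputable def icPhi (M : F[X]) (n : ℕ) (p : F[X] × F[X]) :
    (F[X] × F[X]) × ((F × F × F) × (F × F × F)) :=
  ((p.1 %ₘ M, p.2 %ₘ M),
    ((p.1.coeff (4 * n), p.1.coeff (4 * n - 1), p.1.coeff (4 * n - 2)),
      (p.2.coeff (6 * n), p.2.coeff (6 * n - 1), p.2.coeff (6 * n - 2))))

open Classical in
theorem inf_count (h2 : (2 : F) ≠ 0) (h3 : (3 : F) ≠ 0) {n : ℕ}
    (hn : 2 * Fintype.card F + 2 ≤ 4 * n) :
    ((Fintype.card F : ℝ) - 1) ^ 2 / (Fintype.card F : ℝ) ^ 4 *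
        (1 - 1 / (Fintype.card F : ℝ) ^ 2) ^ Fintype.card F *
        (Fintype.card F : ℝ) ^ (10 * n + 2) ≤
      (((box0 F n).filter (fun p => TwoInf n p.1 p.2 ∧
        ∀ b : F, ¬ Bad (X - C b) p.1 p.2)).card : ℝ) := by
  set q := Fintype.card F with hq
  have hq1 : 1 < q := Fintype.one_lt_card
  obtain ⟨M, hM⟩ : ∃ M : F[X], M = (∏ a : F, (X - C a)) ^ 2 := ⟨_, rfl⟩
  have hMm : M.Monic := by
    rw [hM]
    exact (monic_prod_of_monic _ _ fun a _ => monic_X_sub_C a).pow 2
  have hMd : M.natDegree = 2 * q := by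
    rw [hM, (monic_prod_of_monic _ _ fun a _ => monic_X_sub_C a).natDegree_pow,
      natDegree_prod_of_monic _ _ fun a _ => monic_X_sub_C a]
    simp [hq]
  have hMdvd : ∀ a : F, (X - C a) ^ 2 ∣ M := by
    intro a
    have h1 : (X - C a : F[X]) ∣ ∏ b : F, (X - C b) :=
      Finset.dvd_prod_of_mem (fun b : F => (X - C b : F[X])) (Finset.mem_univ a)
    rw [hM]
    exact pow_dvd_pow_of_dvd h1 2
  have hloc := hermite_local h2 h3
  rw [← hq] at hloc
  have hlt := card_LTwo h2 h3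
  rw [← hq] at hlt
  obtain ⟨T1, hT1⟩ : ∃ T1 : Finset (F[X] × F[X]), T1 = (PN F (2 * q) ×ˢ PN F (2 * q)).filter
      (fun p => ∀ a : F, ¬ Bad (X - C a) p.1 p.2) := ⟨_, rfl⟩
  obtain ⟨T2, hT2⟩ : ∃ T2 : Finset ((F × F × F) × (F × F × F)), T2 =
      (Finset.univ : Finset ((F × F × F) × (F × F × F))).filter
        (fun z => LTwo z.1.1 z.1.2.1 z.1.2.2 z.2.1 z.2.2.1 z.2.2.2) := ⟨_, rfl⟩
  rw [← hT1] at hloc
  rw [← hT2] at hlt
  obtain ⟨U, hU⟩ : ∃ U : Finset (F[X] × F[X]), U = (box0 F n).filter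
      (fun p => TwoInf n p.1 p.2 ∧ ∀ b : F, ¬ Bad (X - C b) p.1 p.2) := ⟨_, rfl⟩
  rw [← hU]
  have hcount : q ^ (4 * n + 1 - 2 * q - 3) * q ^ (6 * n + 1 - 2 * q - 3) * (T1 ×ˢ T2).card ≤
      (U.filter (fun p => icPhi M n p ∈ T1 ×ˢ T2)).card := by
    apply Finset.mul_card_image_le_card_of_maps_to (f := icPhi M n)
    · intro p hp
      exact (Finset.mem_filter.1 hp).2
    · rintro ⟨⟨r, s⟩, ⟨⟨x0, x1, x2⟩, ⟨y0, y1, y2⟩⟩⟩ hb
      obtain ⟨hb1, hb2⟩ := Finset.mem_product.1 hb
      rw [hT1, Finset.mem_filter, Finset.mem_product] at hb1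
      rw [hT2, Finset.mem_filter] at hb2
      obtain ⟨⟨hr, hs⟩, hbad⟩ := hb1
      have hL : LTwo x0 x1 x2 y0 y1 y2 := hb2.2
      simp only at hr hs hbad
      rw [← hMd] at hr hs
      have hcA := card_data_eq hMm (N := 4 * n + 1) (k := 3) (by rw [hMd]; omega) r hr
        ![x0, x1, x2]
      have hcB := card_data_eq hMm (N := 6 * n + 1) (k := 3) (by rw [hMd]; omega) s hs
        ![y0, y1, y2]
      rw [hMd] at hcA hcB
      rw [← hq] at hcA hcB
      rw [← hcA, ← hcB, ← Finset.card_product]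
      apply Finset.card_le_card
      rintro ⟨A, B⟩ hAB
      rw [Finset.mem_product, Finset.mem_filter, Finset.mem_filter] at hAB
      obtain ⟨⟨hA, hAd, hAc⟩, ⟨hB, hBd, hBc⟩⟩ := hAB
      simp only at hA hAd hAc hB hBd hBc
      have a0 : A.coeff (4 * n) = x0 := by
        have := hAc 0
        simpa using this
      have a1 : A.coeff (4 * n - 1) = x1 := by
        have := hAc 1
        simpa using this
      have a2 : A.coeff (4 * n - 2) = x2 := by
        have := hAc 2
        simpa using this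
      have b0 : B.coeff (6 * n) = y0 := by
        have := hBc 0
        simpa using this
      have b1 : B.coeff (6 * n - 1) = y1 := by
        have := hBc 1
        simpa using this
      have b2 : B.coeff (6 * n - 2) = y2 := by
        have := hBc 2
        simpa using this
      have hAn : A.natDegree ≤ 4 * n := by
        have h5 : A.degree < ((4 * n + 1 : ℕ) : WithBot ℕ) := (mem_PN _ _).1 hA
        have h6 : A.natDegree < 4 * n + 1 := by
          by_cases h0 : A = 0
          · rw [h0]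
            simp
          · exact (natDegree_lt_iff_degree_lt h0).2 h5
        omega
      have hBn : B.natDegree ≤ 6 * n := by
        have h5 : B.degree < ((6 * n + 1 : ℕ) : WithBot ℕ) := (mem_PN _ _).1 hB
        have h6 : B.natDegree < 6 * n + 1 := by
          by_cases h0 : B = 0
          · rw [h0]
            simp
          · exact (natDegree_lt_iff_degree_lt h0).2 h5
        omega
      have hMdeg : M.degree = ((M.natDegree : ℕ) : WithBot ℕ) := degree_eq_natDegree hMm.ne_zero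
      have hmA : A %ₘ M = r := ic_mod hMm (by rw [hMdeg]; exact (mem_PN _ _).1 hr) hAd
      have hmB : B %ₘ M = s := ic_mod hMm (by rw [hMdeg]; exact (mem_PN _ _).1 hs) hBd
      have hphi : icPhi M n (A, B) = ((r, s), ((x0, x1, x2), (y0, y1, y2))) := by
        unfold icPhi
        simp only [hmA, hmB, a0, a1, a2, b0, b1, b2]
      rw [Finset.mem_filter, Finset.mem_filter]
      refine ⟨⟨?_, ?_⟩, hphi⟩
      · rw [hU, Finset.mem_filter]
        refine ⟨?_, ?_, ?_⟩
        · unfold box0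
          rw [Finset.mem_product]
          exact ⟨hA, hB⟩
        · rw [twoInf_iff (by omega) hAn hBn]
          simp only [a0, a1, a2, b0, b1, b2]
          exact hL
        · intro b hbb
          exact hbad b (ic_bad ((hMdvd b).trans hAd) ((hMdvd b).trans hBd) hbb)
      · rw [hphi]
        exact hb
  have hcount2 : q ^ (4 * n + 1 - 2 * q - 3) * q ^ (6 * n + 1 - 2 * q - 3) *
      ((q ^ 4 - q ^ 2) ^ q * (q ^ 2 * (q - 1) ^ 2)) ≤ U.card := by
    refine le_trans ?_ (hcount.trans (Finset.card_filter_le _ _))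
    rw [Finset.card_product]
    exact Nat.mul_le_mul_left _ (Nat.mul_le_mul hloc hlt)
  have hq0 : (0 : ℝ) < q := by exact_mod_cast (by omega : 0 < q)
  have hfin : (q : ℝ) ^ (4 * n + 1 - 2 * q - 3) * (q : ℝ) ^ (6 * n + 1 - 2 * q - 3) *
      (((q : ℝ) ^ 4 - (q : ℝ) ^ 2) ^ q * ((q : ℝ) ^ 2 * ((q : ℝ) - 1) ^ 2)) ≤ (U.card : ℝ) := by
    have h5 : (q ^ 2 : ℕ) ≤ q ^ 4 := Nat.pow_le_pow_right (by omega) (by norm_num)
    have h6 := (Nat.cast_le (α := ℝ)).2 hcount2
    rw [Nat.cast_mul, Nat.cast_mul, Nat.cast_mul, Nat.cast_mul, Nat.cast_pow, Nat.cast_pow,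
      Nat.cast_pow, Nat.cast_sub h5, Nat.cast_pow, Nat.cast_pow, Nat.cast_pow,
      Nat.cast_sub hq1.le, Nat.cast_one] at h6
    exact h6
  refine le_trans (le_of_eq ?_) hfin
  have e4 : ((q : ℝ) ^ 4 - (q : ℝ) ^ 2) ^ q = (1 - 1 / (q : ℝ) ^ 2) ^ q * (q : ℝ) ^ (4 * q) := by
    rw [pow_mul, ← mul_pow]
    congr 1
    field_simp
  have e5 : (q : ℝ) ^ (10 * n + 2) = (q : ℝ) ^ 4 * ((q : ℝ) ^ (4 * n + 1 - 2 * q - 3) *
      (q : ℝ) ^ (6 * n + 1 - 2 * q - 3) * (q : ℝ) ^ (4 * q) * (q : ℝ) ^ 2) := by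
    rw [← pow_add, ← pow_add, ← pow_add, ← pow_add]
    congr 1
    omega
  rw [e4, e5]
  field_simp

end Pool.Agent.Helper97.AS3
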