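import Pool.Agent.Helper97.AS3.Defs
import Pool.Agent.Helper97.AS2.SolCount

/-!
# AS3-08 LocalCount: the bad pairs of the full box for `v` of degree `≤ 2 n` (copy of `AS2/LocalCount.lean`)

`M = v ^ 2`, degree `2 d ≤ 4 n`. Every pair has residues `(a, b) ∈ PN F (2 d) × PN F (2 d)` with `Bad v a b` (at most `q ^ (2 d)`, `card_bad_sol_le`), and for each there are at most `q ^ (4 n + 1 - 2 d)` polynomials `A` and `q ^ (6 n + 1 - 2 d)` polynomials `B` (`card_PN_residue_le`). Multiply by `q ^ (2 d)`.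
-/

set_option autoImplicit false

open Polynomial

namespace Pool.Agent.Helper97.AS3

open Pool.Agent.Helper31.AR Pool.Agent.Helper97.AS Pool.Agent.Helper97.AS2

variable {F : Type} [Field F] [Fintype F]

open Classical in
theorem bad_count0 (h2 : (2 : F) ≠ 0) (h3 : (3 : F) ≠ 0) {n : ℕ} {v : F[X]} (hv : v.Monic)
    (hirr : Irreducible v) (hd : v.natDegree ≤ 2 * n) :
    ((box0 F n).filter (fun p => Bad v p.1 p.2)).card * Fintype.card F ^ (2 * v.natDegree) ≤
      Fintype.card F ^ (10 * n + 2) := by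
  have hM : (v ^ 2).Monic := hv.pow 2
  have hMd : (v ^ 2).natDegree = 2 * v.natDegree := hv.natDegree_pow 2
  have hTc := card_bad_sol_le h2 h3 hv hirr
  set d := v.natDegree with hddef
  set q := Fintype.card F with hq
  set S := (box0 F n).filter (fun p => Bad v p.1 p.2) with hS
  set T := (PN F (2 * d) ×ˢ PN F (2 * d)).filter (fun p => Bad v p.1 p.2) with hT
  have hmod : ∀ f : F[X], f %ₘ (v ^ 2) ∈ PN F (2 * d) := by
    intro f
    rw [mem_PN, ← hMd, ← degree_eq_natDegree hM.ne_zero]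
    exact degree_modByMonic_lt f hM
  have hdvd : ∀ f : F[X], v ^ 2 ∣ f - f %ₘ (v ^ 2) := by
    intro f
    refine ⟨f /ₘ (v ^ 2), ?_⟩
    have h4 := modByMonic_add_div f (v ^ 2)
    linear_combination -h4
  have hv2 : v ∣ v ^ 2 := dvd_pow_self v two_ne_zero
  have hmap : ∀ p ∈ S, (p.1 %ₘ (v ^ 2), p.2 %ₘ (v ^ 2)) ∈ T := by
    intro p hp
    rw [hS, Finset.mem_filter] at hp
    rw [hT, Finset.mem_filter, Finset.mem_product]
    refine ⟨⟨hmod _, hmod _⟩, ?_, ?_⟩
    · have h4 : dis (p.1 %ₘ (v ^ 2)) (p.2 %ₘ (v ^ 2)) = dis p.1 p.2 -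
          ((p.1 - p.1 %ₘ (v ^ 2)) * (4 * (p.1 ^ 2 + p.1 * (p.1 %ₘ (v ^ 2)) +
            (p.1 %ₘ (v ^ 2)) ^ 2)) +
          (p.2 - p.2 %ₘ (v ^ 2)) * (27 * (p.2 + p.2 %ₘ (v ^ 2)))) := by
        unfold dis
        ring
      show v ^ 2 ∣ dis (p.1 %ₘ (v ^ 2)) (p.2 %ₘ (v ^ 2))
      rw [h4]
      exact dvd_sub hp.2.1 (dvd_add ((hdvd _).mul_right _) ((hdvd _).mul_right _))
    · intro h5
      have h5' : v ∣ p.1 %ₘ (v ^ 2) := h5
      have h6 : v ∣ p.1 := by
        have h7 := dvd_add (hv2.trans (hdvd p.1)) h5'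
        rwa [sub_add_cancel] at h7
      have h8 := hp.2.2 h6
      show v ^ 2 ∣ p.2 %ₘ (v ^ 2)
      have h9 := dvd_sub h8 (hdvd p.2)
      rwa [sub_sub_cancel] at h9
  have hcard : S.card ≤ T.card * (q ^ (4 * n + 1 - 2 * d) * q ^ (6 * n + 1 - 2 * d)) := by
    rw [Finset.card_eq_sum_card_fiberwise hmap]
    refine (Finset.sum_le_card_nsmul _ _
      (q ^ (4 * n + 1 - 2 * d) * q ^ (6 * n + 1 - 2 * d)) ?_).trans ?_
    · intro t _
      have h4 : S.filter (fun p => (p.1 %ₘ (v ^ 2), p.2 %ₘ (v ^ 2)) = t) ⊆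
          ((PN F (4 * n + 1)).filter (fun A => v ^ 2 ∣ A - t.1)) ×ˢ
          ((PN F (6 * n + 1)).filter (fun B => v ^ 2 ∣ B - t.2)) := by
        intro p hp
        rw [Finset.mem_filter, hS, Finset.mem_filter, box0, Finset.mem_product] at hp
        obtain ⟨⟨⟨hp1, hp2⟩, _⟩, hp5⟩ := hp
        rw [Finset.mem_product, Finset.mem_filter, Finset.mem_filter, ← hp5]
        exact ⟨⟨hp1, hdvd _⟩, hp2, hdvd _⟩
      refine (Finset.card_le_card h4).trans ?_
      rw [Finset.card_product]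
      refine Nat.mul_le_mul ?_ ?_
      · have h5 := card_PN_residue_le hM (4 * n + 1) t.1
        rw [hMd] at h5
        exact h5
      · have h5 := card_PN_residue_le hM (6 * n + 1) t.2
        rw [hMd] at h5
        exact h5
    · rw [smul_eq_mul]
  calc S.card * q ^ (2 * d)
      ≤ T.card * (q ^ (4 * n + 1 - 2 * d) * q ^ (6 * n + 1 - 2 * d)) * q ^ (2 * d) :=
        Nat.mul_le_mul_right _ hcard
    _ ≤ q ^ (2 * d) * (q ^ (4 * n + 1 - 2 * d) * q ^ (6 * n + 1 - 2 * d)) * q ^ (2 * d) :=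
        Nat.mul_le_mul_right _ (Nat.mul_le_mul_right _ hTc)
    _ = q ^ (10 * n + 2) := by
        rw [← pow_add, ← pow_add, ← pow_add]
        congr 1
        omega

end Pool.Agent.Helper97.AS3
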