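import Pool.Agent.Helper97.AS3.FinCount
import Pool.Agent.Helper97.AS3.InfCount
import Pool.Agent.Helper97.AS3.CondParity
import Pool.Agent.Helper97.AS3.LocalCount
import Pool.Agent.Helper97.AS3.NotMin
import Pool.Agent.Helper97.AS2.IrrSum
import Pool.Agent.Helper97.AS2.GoodCount
import Pool.Agent.Helper97.AS.LargeCount

/-!
# AS3-11 GoodCount: the number of the good pairs of the full family (compare `AS2/GoodCount.lean`)

`N = q ^ (10 n + 2)`, `u = 1 / q`, `q ≥ 5`. The `q + 1` sets of `fin_count` (`a ∈ F`) and `inf_count` are pairwise disjoint (`Two a A B` implies `Bad (X - C a) A B`; `TwoInf n A B` implies `BadInf n A B`), together at least `(q + 1) (q - 1) ^ 2 / q ^ 4 (1 - 1 / q ^ 2) ^ q N`. A pair in one of them which is not good is (by `cond_parity_fin`, `cond_parity_inf`)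
either not `Min n` or has `dis = 0` (`card_bad_le0`: `≤ N / q ^ 8`), or `Bad v A B` for a monic irreducible `v` of odd degree `≥ 3`: `3 ≤ deg v ≤ 2 n` (`bad_count0`, `irr_sum_odd_le`: `≤ (2 / (5 q ^ 3)) N`) or `deg v > 2 n` (then `v ^ 2 ∣ dis A B`; `box0 F n ⊆ box F n` and `large_count` with `δ = 1 / (100 q ^ 5)`: `≤ δ q ^ (10 n + 4) = N / (100 q ^ 3)`).
`bernoulli_three` (`x = 1 / q ^ 2`, `k = q`): `(1 - 1 / q ^ 2) ^ q ≥ 1 - u + u ^ 2 / 2 - (2 / 3) u ^ 3`; `(q + 1) (q - 1) ^ 2 / q ^ 4 = u (1 - u - u ^ 2 + u ^ 3)`; the product is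
`u - 2 u ^ 2 + u ^ 3 / 2 + (5 / 6) u ^ 4 - (5 / 6) u ^ 5 + (7 / 6) u ^ 6 - (2 / 3) u ^ 7 ≥ u - 2 u ^ 2 + u ^ 3 / 2 + (1 / 2) u ^ 4`, and `1 / 2 - 2 / 5 - 1 / 100 ≥ 1 / 20`, `(1 / 2) u ^ 4 ≥ u ^ 8`.
-/

set_option autoImplicit false

open Polynomial

namespace Pool.Agent.Helper97.AS3

open Pool.Agent.Helper31.AR Pool.Agent.Helper97.AS Pool.Agent.Helper97.AS2

private theorem gc_five (F : Type) [Field F] [Fintype F] (h2 : (2 : F) ≠ 0) (h3 : (3 : F) ≠ 0) :
    5 ≤ Fintype.card F := by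
  have h1 : 1 < Fintype.card F := Fintype.one_lt_card
  have h0 : ((Fintype.card F : ℕ) : F) = 0 := Nat.cast_card_eq_zero F
  by_contra hcon
  have h4 : Fintype.card F = 2 ∨ Fintype.card F = 3 ∨ Fintype.card F = 4 := by omega
  rcases h4 with h | h | h
  · rw [h] at h0
    exact h2 (by exact_mod_cast h0)
  · rw [h] at h0
    exact h3 (by exact_mod_cast h0)
  · rw [h] at h0
    have h5 : (2 : F) * 2 = 0 := by
      have h6 : (4 : F) = 0 := by exact_mod_cast h0
      rw [← h6]
      norm_num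
    rcases mul_eq_zero.1 h5 with h6 | h6 <;> exact h2 h6

section

variable {F : Type} [Field F] [Fintype F]

open Classical in
/-- the pairs counted by `fin_count` -/
private noncomputable def gcE (n : ℕ) (a : F) : Finset (F[X] × F[X]) :=
  (box0 F n).filter (fun p => Two a p.1 p.2 ∧ (∀ b : F, b ≠ a → ¬ Bad (X - C b) p.1 p.2) ∧
    ¬ BadInf n p.1 p.2)

open Classical in
/-- the pairs counted by `inf_count` -/
private noncomputable def gcI (F : Type) [Field F] [Fintype F] (n : ℕ) : Finset (F[X] × F[X]) :=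
  (box0 F n).filter (fun p => TwoInf n p.1 p.2 ∧ ∀ b : F, ¬ Bad (X - C b) p.1 p.2)

omit [Fintype F] in
private theorem gc_two_bad {a : F} {A B : F[X]} (h : Two a A B) : Bad (X - C a) A B := by
  refine ⟨h.2.1, fun hd => ?_⟩
  exact absurd (dvd_iff_isRoot.1 hd) h.1

open Classical in
private theorem gc_union_card (n : ℕ) :
    ((Finset.univ.biUnion fun a : F => gcE n a) ∪ gcI F n).card =
      ∑ a : F, (gcE n a).card + (gcI F n).card := by
  rw [Finset.card_union_of_disjoint, Finset.card_biUnion]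
  · intro a _ b _ hab
    change Disjoint (gcE n a) (gcE n b)
    rw [Finset.disjoint_left]
    intro p hp hp'
    unfold gcE at hp hp'
    rw [Finset.mem_filter] at hp hp'
    exact hp.2.2.1 b (Ne.symm hab) (gc_two_bad hp'.2.1)
  · rw [Finset.disjoint_left]
    intro p hp hp'
    rw [Finset.mem_biUnion] at hp
    obtain ⟨a, _, hp⟩ := hp
    unfold gcE at hp
    unfold gcI at hp'
    rw [Finset.mem_filter] at hp hp'
    exact hp'.2.2 a (gc_two_bad hp.2.1)

open Classical in
private theorem gc_subset (h2 : (2 : F) ≠ 0) (h3 : (3 : F) ≠ 0) {n : ℕ} (hn : 1 ≤ n) :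
    ((Finset.univ.biUnion fun a : F => gcE n a) ∪ gcI F n) ⊆ good0 F n ∪
    (((box0 F n).filter (fun p => ¬ (Min n p.1 p.2 ∧ dis p.1 p.2 ≠ 0 ∧ ¬ Const p.1 p.2))) ∪
    ((((Finset.Icc 3 (2 * n)).filter (fun d => Odd d)).biUnion
      fun d => ((MN F d).filter fun v => Irreducible v).biUnion
      fun v => (box0 F n).filter (fun p => Bad v p.1 p.2)) ∪
    (box F n).filter (fun p => ∃ v : F[X], Irreducible v ∧ 2 * n < v.natDegree ∧
        v ^ 2 ∣ dis p.1 p.2))) := by
  intro p hp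
  have hb : p ∈ box0 F n := by
    rw [Finset.mem_union, Finset.mem_biUnion] at hp
    rcases hp with ⟨a, _, hp⟩ | hp
    · unfold gcE at hp
      exact (Finset.mem_filter.1 hp).1
    · unfold gcI at hp
      exact (Finset.mem_filter.1 hp).1
  have hb' := hb
  unfold box0 at hb'
  rw [Finset.mem_product, mem_PN_iff_natDegree (N := 4 * n + 1) (by omega),
    mem_PN_iff_natDegree (N := 6 * n + 1) (by omega)] at hb'
  by_cases hm : Min n p.1 p.2 ∧ dis p.1 p.2 ≠ 0 ∧ ¬ Const p.1 p.2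
  · by_cases hbad : ∀ v : F[X], v.Monic → Irreducible v → Odd v.natDegree → 3 ≤ v.natDegree →
        ¬ Bad v p.1 p.2
    · apply Finset.mem_union_left
      unfold good0
      rw [Finset.mem_filter]
      refine ⟨hb, hm.1, hm.2.1, ?_⟩
      rw [Finset.mem_union, Finset.mem_biUnion] at hp
      rcases hp with ⟨a, _, hp⟩ | hp
      · unfold gcE at hp
        rw [Finset.mem_filter] at hp
        exact cond_parity_fin h2 h3 hn (by omega) (by omega) hm.2.1 hp.2.1 hp.2.2.1 hp.2.2.2 hbad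
      · unfold gcI at hp
        rw [Finset.mem_filter] at hp
        exact cond_parity_inf h2 h3 hn (by omega) (by omega) hm.2.1 hp.2.1 hp.2.2 hbad
    · push Not at hbad
      obtain ⟨v, hvm, hvi, hvo, hv3, hvb⟩ := hbad
      apply Finset.mem_union_right
      apply Finset.mem_union_right
      by_cases hl : v.natDegree ≤ 2 * n
      · apply Finset.mem_union_left
        rw [Finset.mem_biUnion]
        refine ⟨v.natDegree, ?_, ?_⟩
        · rw [Finset.mem_filter, Finset.mem_Icc]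
          exact ⟨⟨hv3, hl⟩, hvo⟩
        · rw [Finset.mem_biUnion]
          refine ⟨v, ?_, ?_⟩
          · rw [Finset.mem_filter, mem_MN]
            exact ⟨⟨hvm, rfl⟩, hvi⟩
          · rw [Finset.mem_filter]
            exact ⟨hb, hvb⟩
      · apply Finset.mem_union_right
        rw [Finset.mem_filter]
        refine ⟨?_, v, hvi, by omega, hvb.1⟩
        unfold box
        rw [Finset.mem_product, mem_PN_iff_natDegree (N := 4 * n + 2) (by omega),
          mem_PN_iff_natDegree (N := 6 * n + 2) (by omega)]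
        omega
  · apply Finset.mem_union_right
    apply Finset.mem_union_left
    rw [Finset.mem_filter]
    exact ⟨hb, hm⟩

open Classical in
private theorem gc_small (h2 : (2 : F) ≠ 0) (h3 : (3 : F) ≠ 0) (n : ℕ) :
    (((((Finset.Icc 3 (2 * n)).filter (fun d => Odd d)).biUnion
      fun d => ((MN F d).filter fun v => Irreducible v).biUnion
      fun v => (box0 F n).filter (fun p => Bad v p.1 p.2)).card : ℕ) : ℝ) ≤
      (2 / (5 * (Fintype.card F : ℝ) ^ 3)) * (Fintype.card F : ℝ) ^ (10 * n + 2) := by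
  have hq5 := gc_five F h2 h3
  set q : ℝ := (Fintype.card F : ℝ) with hq
  have hq0 : 0 < q := by
    rw [hq]
    exact_mod_cast (by omega : 0 < Fintype.card F)
  have h1 : ∀ d ∈ (Finset.Icc 3 (2 * n)).filter (fun d => Odd d),
      ((((MN F d).filter fun v => Irreducible v).biUnion
      fun v => (box0 F n).filter (fun p => Bad v p.1 p.2)).card : ℝ) ≤
      (((MN F d).filter fun v => Irreducible v).card : ℝ) / q ^ (2 * d) *
        q ^ (10 * n + 2) := by
    intro d hd
    rw [Finset.mem_filter, Finset.mem_Icc] at hd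
    have h4 : ∀ v ∈ (MN F d).filter (fun v => Irreducible v),
        (((box0 F n).filter (fun p => Bad v p.1 p.2)).card : ℝ) ≤
        1 / q ^ (2 * d) * q ^ (10 * n + 2) := by
      intro v hv
      rw [Finset.mem_filter, mem_MN] at hv
      have h5 := bad_count0 h2 h3 (n := n) hv.1.1 hv.2 (by rw [hv.1.2]; exact hd.1.2)
      rw [hv.1.2] at h5
      have h7 : ((((box0 F n).filter (fun p => Bad v p.1 p.2)).card *
          Fintype.card F ^ (2 * d) : ℕ) : ℝ) ≤
          ((Fintype.card F ^ (10 * n + 2) : ℕ) : ℝ) := by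
        exact_mod_cast h5
      push_cast at h7
      rw [← hq] at h7
      rw [div_mul_eq_mul_div, one_mul, le_div_iff₀ (by positivity)]
      exact h7
    calc ((((MN F d).filter fun v => Irreducible v).biUnion
          fun v => (box0 F n).filter (fun p => Bad v p.1 p.2)).card : ℝ)
        ≤ ((∑ v ∈ (MN F d).filter (fun v => Irreducible v),
            ((box0 F n).filter (fun p => Bad v p.1 p.2)).card : ℕ) : ℝ) := by
          exact_mod_cast Finset.card_biUnion_le
      _ = ∑ v ∈ (MN F d).filter (fun v => Irreducible v),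
            (((box0 F n).filter (fun p => Bad v p.1 p.2)).card : ℝ) := by push_cast; rfl
      _ ≤ ∑ v ∈ (MN F d).filter (fun v => Irreducible v),
            1 / q ^ (2 * d) * q ^ (10 * n + 2) :=
          Finset.sum_le_sum h4
      _ = _ := by
          rw [Finset.sum_const, nsmul_eq_mul]
          ring
  calc (((((Finset.Icc 3 (2 * n)).filter (fun d => Odd d)).biUnion
      fun d => ((MN F d).filter fun v => Irreducible v).biUnion
        fun v => (box0 F n).filter (fun p => Bad v p.1 p.2)).card : ℕ) : ℝ)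
      ≤ ((∑ d ∈ (Finset.Icc 3 (2 * n)).filter (fun d => Odd d),
          (((MN F d).filter fun v => Irreducible v).biUnion
          fun v => (box0 F n).filter (fun p => Bad v p.1 p.2)).card : ℕ) : ℝ) := by
        exact_mod_cast Finset.card_biUnion_le
    _ = ∑ d ∈ (Finset.Icc 3 (2 * n)).filter (fun d => Odd d),
          ((((MN F d).filter fun v => Irreducible v).biUnion
          fun v => (box0 F n).filter (fun p => Bad v p.1 p.2)).card : ℝ) := by push_cast; rfl
    _ ≤ ∑ d ∈ (Finset.Icc 3 (2 * n)).filter (fun d => Odd d),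
          (((MN F d).filter fun v => Irreducible v).card : ℝ) / q ^ (2 * d) *
          q ^ (10 * n + 2) := Finset.sum_le_sum h1
    _ = (∑ d ∈ (Finset.Icc 3 (2 * n)).filter (fun d => Odd d),
          (((MN F d).filter fun v => Irreducible v).card : ℝ) / q ^ (2 * d)) *
            q ^ (10 * n + 2) := by
        rw [Finset.sum_mul]
    _ ≤ _ := mul_le_mul_of_nonneg_right (irr_sum_odd_le F hq5 (2 * n)) (by positivity)

private theorem gc_fin (q : ℝ) (hq : 5 ≤ q) :
    1 / q * (1 - 2 / q) + 1 / (20 * q ^ 3) ≤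
      (q + 1) * ((q - 1) ^ 2 / q ^ 4) *
        (1 - q * (1 / q ^ 2) + (q * (q - 1) / 2) * (1 / q ^ 2) ^ 2 -
        (q * (q - 1) * (q - 2) / 6) * (1 / q ^ 2) ^ 3) -
      2 / (5 * q ^ 3) - 1 / q ^ 8 - 1 / (100 * q ^ 3) := by
  have hq0 : 0 < q := by linarith
  have ha0 : 0 < 1 / q := by positivity
  have ha : 1 / q ≤ 1 / 5 := one_div_le_one_div_of_le (by norm_num) hq
  have e0 : (q + 1) * ((q - 1) ^ 2 / q ^ 4) = (1 / q) * (1 + 1 / q) * (1 - 1 / q) ^ 2 := by
    field_simp
  have e1 : q * (1 / q ^ 2) = 1 / q := by field_simp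
  have e2 : (q * (q - 1) / 2) * (1 / q ^ 2) ^ 2 = (1 / q) ^ 2 * ((1 - 1 / q) / 2) := by
    field_simp
  have e3 : (q * (q - 1) * (q - 2) / 6) * (1 / q ^ 2) ^ 3 =
      (1 / q) ^ 2 * ((1 / q) * (1 - 1 / q) * (1 - 2 * (1 / q)) / 6) := by
    field_simp
  have e4 : 2 / (5 * q ^ 3) = (1 / q) ^ 3 * (2 / 5) := by
    field_simp
  have e5 : 1 / q ^ 8 = (1 / q) ^ 8 := by
    field_simp
  have e6 : 1 / (100 * q ^ 3) = (1 / q) ^ 3 * (1 / 100) := by
    field_simp
  have e7 : 1 / (20 * q ^ 3) = (1 / q) ^ 3 * (1 / 20) := by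
    field_simp
  have e8 : 2 / q = 2 * (1 / q) := by
    field_simp
  rw [e0, e1, e2, e3, e4, e5, e6, e7, e8]
  set a := 1 / q
  have b2 : a ^ 2 ≤ a / 5 := by nlinarith
  have b4 : a ^ 4 ≤ a / 5 := by nlinarith [pow_pos ha0 2, pow_pos ha0 3]
  have b5 : a ^ 5 ≤ a / 5 := by nlinarith [pow_pos ha0 2, pow_pos ha0 3, pow_pos ha0 4]
  have b6 : a ^ 6 ≤ a / 5 := by
    nlinarith [pow_pos ha0 2, pow_pos ha0 3, pow_pos ha0 4, pow_pos ha0 5]
  have b3 : 0 < a ^ 3 := by positivity
  have key : 0 ≤ 1 / 25 + 5 / 6 * a - 1 / 3 * a ^ 2 + 1 / 3 * a ^ 3 - 5 / 6 * a ^ 4 -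
      1 / 6 * a ^ 5 - 1 / 3 * a ^ 6 := by linarith
  nlinarith [mul_nonneg b3.le key]

end

theorem good_count0 (F : Type) [Field F] [Fintype F] (h2 : (2 : F) ≠ 0) (h3 : (3 : F) ≠ 0) :
    ∃ n₀ : ℕ, ∀ n : ℕ, n₀ ≤ n →
      (1 / (Fintype.card F : ℝ) * (1 - 2 / (Fintype.card F : ℝ)) +
          1 / (20 * (Fintype.card F : ℝ) ^ 3)) *
          (Fintype.card F : ℝ) ^ (10 * n + 2) ≤
        ((good0 F n).card : ℝ) := by
  classical
  have hq5 := gc_five F h2 h3
  set q : ℝ := (Fintype.card F : ℝ) with hq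
  have hq5' : (5 : ℝ) ≤ q := by
    rw [hq]
    exact_mod_cast hq5
  have hq0 : 0 < q := by linarith
  obtain ⟨n₀, hn₀⟩ := large_count F h2 h3 (1 / (100 * q ^ 5)) (by positivity)
  refine ⟨n₀ + 2 + Fintype.card F, fun n hn => ?_⟩
  have hl := hn₀ n (by omega)
  rw [← hq] at hl
  have hs := gc_small h2 h3 n (F := F)
  rw [← hq] at hs
  have ht := fun a : F => fin_count h2 h3 (n := n) (by omega) a
  have hti := inf_count h2 h3 (F := F) (n := n) (by omega)
  rw [← hq] at hti
  have hb := card_bad_le0 h2 h3 (F := F) (n := n) (by omega)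
  rw [← hq] at hb
  have h1 := Finset.card_le_card (gc_subset h2 h3 (n := n) (by omega) (F := F))
  rw [gc_union_card] at h1
  have h4 := h1.trans ((Finset.card_union_le _ _).trans
      (Nat.add_le_add_left ((Finset.card_union_le _ _).trans
        (Nat.add_le_add_left (Finset.card_union_le _ _) _)) _))
  have h5 : ((∑ a : F, (gcE n a).card + (gcI F n).card : ℕ) : ℝ) ≤ ((good0 F n).card : ℝ) +
      ((((box0 F n).filter (fun p => ¬ (Min n p.1 p.2 ∧ dis p.1 p.2 ≠ 0 ∧
          ¬ Const p.1 p.2))).card : ℝ) +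
      (((((Finset.Icc 3 (2 * n)).filter (fun d => Odd d)).biUnion
      fun d => ((MN F d).filter fun v => Irreducible v).biUnion
      fun v => (box0 F n).filter (fun p => Bad v p.1 p.2)).card : ℝ) +
      (((box F n).filter (fun p => ∃ v : F[X], Irreducible v ∧ 2 * n < v.natDegree ∧
        v ^ 2 ∣ dis p.1 p.2)).card : ℝ))) := by
    exact_mod_cast h4
  set Q : ℝ := q ^ (10 * n + 2) with hQ
  have hQ0 : 0 < Q := by positivity
  set W : ℝ := (1 - 1 / q ^ 2) ^ Fintype.card F with hW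
  have h6 : (q + 1) * ((q - 1) ^ 2 / q ^ 4) * W * Q ≤
      ((∑ a : F, (gcE n a).card + (gcI F n).card : ℕ) : ℝ) := by
    push_cast
    have h7 : q * ((q - 1) ^ 2 / q ^ 4 * W * Q) ≤ ∑ a : F, ((gcE n a).card : ℝ) := by
      have h8 : ∑ _a : F, ((q - 1) ^ 2 / q ^ 4 * W * Q) ≤ ∑ a : F, ((gcE n a).card : ℝ) :=
        Finset.sum_le_sum fun a _ => ht a
      rw [Finset.sum_const, Finset.card_univ, nsmul_eq_mul] at h8
      exact h8
    have h9 : (q - 1) ^ 2 / q ^ 4 * W * Q ≤ ((gcI F n).card : ℝ) := hti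
    have h10 : (q + 1) * ((q - 1) ^ 2 / q ^ 4) * W * Q =
        q * ((q - 1) ^ 2 / q ^ 4 * W * Q) + (q - 1) ^ 2 / q ^ 4 * W * Q := by ring
    rw [h10]
    exact add_le_add h7 h9
  have hlQ : 1 / (100 * q ^ 5) * q ^ (10 * n + 4) = 1 / (100 * q ^ 3) * Q := by
    have e5 : q ^ (10 * n + 4) = Q * q ^ 2 := by
      rw [hQ, ← pow_add]
    rw [e5]
    field_simp
  rw [hlQ] at hl
  have hx : 1 / q ^ 2 ≤ 1 := by
    rw [div_le_one (by positivity)]
    nlinarith
  have hbern := bernoulli_three (1 / q ^ 2) (by positivity) hx (Fintype.card F)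
  rw [← hq, ← hW] at hbern
  have hfin := gc_fin q hq5'
  have hc0 : 0 ≤ (q + 1) * ((q - 1) ^ 2 / q ^ 4) := by positivity
  have h11 := mul_le_mul_of_nonneg_left hbern hc0
  have h12 : 1 / q * (1 - 2 / q) + 1 / (20 * q ^ 3) ≤
      (q + 1) * ((q - 1) ^ 2 / q ^ 4) * W - 2 / (5 * q ^ 3) - 1 / q ^ 8 - 1 / (100 * q ^ 3) := by
    linarith
  have h13 := mul_le_mul_of_nonneg_right h12 hQ0.le
  have h14 : ((q + 1) * ((q - 1) ^ 2 / q ^ 4) * W - 2 / (5 * q ^ 3) - 1 / q ^ 8 -
      1 / (100 * q ^ 3)) * Q = (q + 1) * ((q - 1) ^ 2 / q ^ 4) * W * Q -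
      2 / (5 * q ^ 3) * Q - Q / q ^ 8 - 1 / (100 * q ^ 3) * Q := by
    ring
  rw [h14] at h13
  linarith

end Pool.Agent.Helper97.AS3
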