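import Pool.Agent.Helper97.AS2.Defs

/-!
# Project AS, the full family (MP_8ac872_ag): definitions (no sorry)

* `condInf N A B`: the exponent of the conductor at infinity of the pair `(A, B)`, `deg A ≤ 4 N`, `deg B ≤ 6 N` (`a`, `b` the coefficients of degree `4 N`, `6 N`): `0` if `4 a ^ 3 + 27 b ^ 2 ≠ 0`, `1` if this is zero and `a ≠ 0`, `2` if `a = b = 0`.
* `IsFrobC N A B Q`: `IsFrob N A B Q`, and if the equation is minimal at all places then all roots of `Q` have absolute value `q` and `deg Q = (condDeg A B + condInf N A B) - 4`.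
* `box0 F n`: the pairs with `deg A ≤ 4 n`, `deg B ≤ 6 n`; `good0 F n`: those with minimal equation, nonzero discriminant and conductor of odd degree.
* `Two a A B`: the fibre at `a` is of type `I_2`; `TwoInf n A B`: the fibre at infinity is of type `I_2`; `BadInf n A B`: the fibre at infinity is not of type `I_0`, `I_1`, `II`.
* `LBad`, `LTwo`: the same conditions for the first Taylor coefficients.
-/

set_option autoImplicit false

open Polynomial

namespace Pool.Agent.Helper97.AS3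

open Pool.Agent.Helper31.AR Pool.Agent.Helper97.AS Pool.Agent.Helper97.AS2

section

variable {F : Type} [Field F]

open Classical in
/-- The exponent of the conductor at infinity. -/
noncomputable def condInf (N : ℕ) (A B : F[X]) : ℕ :=
  if 4 * A.coeff (4 * N) ^ 3 + 27 * B.coeff (6 * N) ^ 2 ≠ 0 then 0
  else if A.coeff (4 * N) ≠ 0 then 1 else 2

/-- Type `I_2` at `a`. -/
def Two (a : F) (A B : F[X]) : Prop :=
  A.eval a ≠ 0 ∧ (X - C a) ^ 2 ∣ dis A B ∧ ¬ (X - C a) ^ 3 ∣ dis A B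

/-- Type `I_2` at infinity. -/
def TwoInf (n : ℕ) (A B : F[X]) : Prop :=
  A.coeff (4 * n) ≠ 0 ∧ (dis A B).natDegree + 2 = 12 * n

/-- Neither `I_0`, `I_1` nor `II` at infinity. -/
def BadInf (n : ℕ) (A B : F[X]) : Prop :=
  (dis A B).natDegree + 2 ≤ 12 * n ∧
    (A.coeff (4 * n) = 0 → B.coeff (6 * n) = 0 ∧ B.coeff (6 * n - 1) = 0)

/-- `Bad` for the Taylor coefficients. -/
def LBad (x₀ x₁ y₀ y₁ : F) : Prop :=
  4 * x₀ ^ 3 + 27 * y₀ ^ 2 = 0 ∧ 12 * x₀ ^ 2 * x₁ + 54 * y₀ * y₁ = 0 ∧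
    (x₀ = 0 → y₀ = 0 ∧ y₁ = 0)

/-- `Two` for the Taylor coefficients. -/
def LTwo (x₀ x₁ x₂ y₀ y₁ y₂ : F) : Prop :=
  x₀ ≠ 0 ∧ 4 * x₀ ^ 3 + 27 * y₀ ^ 2 = 0 ∧ 12 * x₀ ^ 2 * x₁ + 54 * y₀ * y₁ = 0 ∧
    12 * x₀ ^ 2 * x₂ + 12 * x₀ * x₁ ^ 2 + 54 * y₀ * y₂ + 27 * y₁ ^ 2 ≠ 0

variable [Fintype F]

/-- The Frobenius polynomials, with the degree and the absolute values for minimal equations. -/
structure IsFrobC (N : ℕ) (A B : F[X]) (Q : ℤ[X]) : Prop extends IsFrob N A B Q where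
  natDegree_eq : Min N A B → dis A B ≠ 0 → Q.natDegree + 4 = condDeg A B + condInf N A B
  norm_eq : Min N A B → dis A B ≠ 0 → ∀ b : ℂ, aeval b Q = 0 → ‖b‖ = Fintype.card F

variable (F)

/-- The pairs `(A, B)` with `deg A ≤ 4 n`, `deg B ≤ 6 n`. -/
noncomputable def box0 (n : ℕ) : Finset (F[X] × F[X]) := PN F (4 * n + 1) ×ˢ PN F (6 * n + 1)

open Classical in
/-- The pairs with minimal equation, nonzero discriminant and conductor of odd degree. -/
noncomputable def good0 (n : ℕ) : Finset (F[X] × F[X]) :=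
  (box0 F n).filter (fun p => Min n p.1 p.2 ∧ dis p.1 p.2 ≠ 0 ∧
    Odd (condDeg p.1 p.2 + condInf n p.1 p.2))

end

end Pool.Agent.Helper97.AS3
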