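import Pool.Agent.Helper31.AR.Residue

/-!
# AS3-01 Equi: equidistribution of the residue and the top coefficients

`K = M.natDegree`, `K + k ≤ N`. For every residue `r ∈ PN F K` and `c : Fin k → F` the set `S(r, c)` of the `A ∈ PN F N` with `M ∣ A - r`, `coeff A (N - 1 - i) = c i` (`i < k`) has at most `q ^ (N - k - K)` elements: for `A`, `A' ∈ S(r, c)` the difference is in `PN F (N - k)`
(the top `k` coefficients vanish) and divisible by `M`: `card_class_le`. The sets `S(r, c)` are disjoint with union `PN F N`, and there are `q ^ K q ^ k` of them; `q ^ N = ∑ card S(r, c) ≤ q ^ (K + k) q ^ (N - k - K) = q ^ N`, so all the inequalities are equalities.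
-/

set_option autoImplicit false

open Polynomial

namespace Pool.Agent.Helper97.AS3

open Pool.Agent.Helper31.AR

variable {F : Type} [Field F] [Fintype F]

open Classical in
private theorem eq_le {M : F[X]} (hM : M.Monic) (N k : ℕ) (r : F[X]) (c : Fin k → F) :
    ((PN F N).filter (fun A => M ∣ A - r ∧ ∀ i : Fin k, A.coeff (N - 1 - (i : ℕ)) = c i)).card ≤
      Fintype.card F ^ (N - M.natDegree - k) := by
  have h := card_class_le hM (N - k)
    ((PN F N).filter (fun A => M ∣ A - r ∧ ∀ i : Fin k, A.coeff (N - 1 - (i : ℕ)) = c i)) ?_ ?_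
  · rw [show N - M.natDegree - k = N - k - M.natDegree by omega]
    exact h
  · intro A hA A' hA'
    have h1 := (Finset.mem_filter.1 hA).2.1
    have h2 := (Finset.mem_filter.1 hA').2.1
    have h3 := dvd_sub h1 h2
    rwa [sub_sub_sub_cancel_right] at h3
  · intro A hA A' hA'
    obtain ⟨a1, -, a3⟩ := Finset.mem_filter.1 hA
    obtain ⟨b1, -, b3⟩ := Finset.mem_filter.1 hA'
    rw [mem_PN] at a1 b1 ⊢
    rw [degree_lt_iff_coeff_zero] at a1 b1 ⊢
    intro j hj
    rw [coeff_sub]
    rcases le_or_gt N j with h1 | h1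
    · rw [a1 j h1, b1 j h1, sub_zero]
    · have h2 := a3 ⟨N - 1 - j, by omega⟩
      have h3 := b3 ⟨N - 1 - j, by omega⟩
      have e : N - 1 - (N - 1 - j) = j := by omega
      simp only [e] at h2 h3
      rw [h2, h3, sub_self]

open Classical in
theorem card_data_eq {M : F[X]} (hM : M.Monic) {N k : ℕ} (hN : M.natDegree + k ≤ N) (r : F[X])
    (hr : r ∈ PN F M.natDegree) (c : Fin k → F) :
    ((PN F N).filter (fun A => M ∣ A - r ∧ ∀ i : Fin k, A.coeff (N - 1 - (i : ℕ)) = c i)).card =
      Fintype.card F ^ (N - M.natDegree - k) := by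
  set Φ : F[X] → F[X] × (Fin k → F) := fun A => (A %ₘ M, fun i => A.coeff (N - 1 - (i : ℕ)))
    with hΦ
  have hmaps : ∀ A ∈ PN F N, Φ A ∈ PN F M.natDegree ×ˢ (Finset.univ : Finset (Fin k → F)) := by
    intro A _
    rw [Finset.mem_product]
    refine ⟨?_, Finset.mem_univ _⟩
    rw [mem_PN, ← degree_eq_natDegree hM.ne_zero]
    exact degree_modByMonic_lt A hM
  have hfib : ∀ p ∈ PN F M.natDegree ×ˢ (Finset.univ : Finset (Fin k → F)),
      (PN F N).filter (fun A => Φ A = p) = (PN F N).filter
        (fun A => M ∣ A - p.1 ∧ ∀ i : Fin k, A.coeff (N - 1 - (i : ℕ)) = p.2 i) := by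
    rintro ⟨s, e⟩ hp
    have hs := (Finset.mem_product.1 hp).1
    refine Finset.filter_congr fun A _ => ?_
    have hsd : s %ₘ M = s := by
      rw [modByMonic_eq_self_iff hM, degree_eq_natDegree hM.ne_zero]
      exact (mem_PN _ _).1 hs
    have h1 : A %ₘ M = s ↔ M ∣ A - s := by
      rw [← modByMonic_eq_zero_iff_dvd hM, sub_modByMonic, hsd, sub_eq_zero]
    rw [hΦ, Prod.mk.injEq, h1, funext_iff]
  have hsum := Finset.card_eq_sum_card_fiberwise hmaps
  rw [Finset.sum_congr rfl fun p hp => congrArg Finset.card (hfib p hp), card_PN] at hsum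
  have hcard : ∑ _p ∈ PN F M.natDegree ×ˢ (Finset.univ : Finset (Fin k → F)),
      Fintype.card F ^ (N - M.natDegree - k) = Fintype.card F ^ N := by
    rw [Finset.sum_const, Finset.card_product, card_PN, Finset.card_univ, Fintype.card_fun,
      Fintype.card_fin, smul_eq_mul, ← pow_add, ← pow_add]
    congr 1
    omega
  have heq := (Finset.sum_eq_sum_iff_of_le fun p _ => eq_le hM N k p.1 p.2).1
    (hsum.symm.trans hcard.symm)
  exact heq (r, c) (Finset.mem_product.2 ⟨hr, Finset.mem_univ _⟩)

end Pool.Agent.Helper97.AS3
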