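import Pool.Agent.Helper97.AS3.LCount
import Pool.Agent.Helper97.AS3.Bridge

/-!
# AS3-04 ResCount: the residues modulo `(X ^ q - X) ^ 2 (X - a)`

The map `r ↦ (the Taylor coefficients 0, 1, 2 at a; the Taylor coefficients 0, 1 at every b ≠ a)` from `PN F (2 q + 1)` to `(F × F × F) × ({b // b ≠ a} → F × F)` is injective: a difference in the kernel is divisible by `(X - C a) ^ 3` and all `(X - C b) ^ 2`, i.e. by a polynomial of degree `2 q + 1`. Both sides
have `q ^ (2 q + 1)` elements, so it is bijective. With `bad_iff`, `two_iff` the set of the pairs `(r, s)` is in bijection with the pairs (`z` with `LTwo`, a function from `{b // b ≠ a}` to the quadruples with `¬ LBad`): at least `q ^ 2 (q - 1) ^ 2 (q ^ 4 - q ^ 2) ^ (q - 1)` (`card_LTwo`, `card_not_LBad`).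
(Compare `hermite_local` in `AS2/HermiteLocal.lean`.)
-/

set_option autoImplicit false

open Polynomial

namespace Pool.Agent.Helper97.AS3

open Pool.Agent.Helper31.AR Pool.Agent.Helper97.AS Pool.Agent.Helper97.AS2

variable {F : Type} [Field F] [Fintype F]

private theorem rc_dvd (a : F) (k : ℕ) (f : F[X]) :
    (X - C a) ^ k ∣ f ↔ ∀ d < k, (taylor a f).coeff d = 0 := by
  rw [X_sub_C_pow_dvd_iff, X_pow_dvd_iff, taylor_apply]

open Classical in
private theorem rc_surj (a : F) (u : F × F × F) (w : F → F × F) :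
    ∃ A ∈ PN F (2 * Fintype.card F + 1),
      ((taylor a A).coeff 0, (taylor a A).coeff 1, (taylor a A).coeff 2) = u ∧
      ∀ b, b ≠ a → ((taylor b A).coeff 0, (taylor b A).coeff 1) = w b := by
  let P : Finset F[X] := PN F (2 * Fintype.card F + 1)
  have : Fintype {A // A ∈ P} := Finset.Subtype.fintype P
  let Ψ : {A // A ∈ P} → ((F × F × F) × ({b : F // b ≠ a} → F × F)) :=
    fun A => (((taylor a (A : F[X])).coeff 0, (taylor a (A : F[X])).coeff 1,
      (taylor a (A : F[X])).coeff 2),
      fun b => ((taylor (b : F) (A : F[X])).coeff 0, (taylor (b : F) (A : F[X])).coeff 1))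
  have hinj : Function.Injective Ψ := by
    rintro ⟨A, hA⟩ ⟨B, hB⟩ h
    obtain ⟨e, he⟩ : ∃ e : F → ℕ, e = fun b => if b = a then 3 else 2 := ⟨_, rfl⟩
    have h1 : ∀ b, (X - C b) ^ (e b) ∣ A - B := by
      intro b
      rw [rc_dvd]
      intro d hd
      rw [map_sub, coeff_sub, sub_eq_zero]
      by_cases hb : b = a
      · subst hb
        have hd3 : d < 3 := by simpa [he] using hd
        have h2 := congrArg Prod.fst h
        have e0 : (taylor b A).coeff 0 = (taylor b B).coeff 0 := congrArg Prod.fst h2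
        have e1 : (taylor b A).coeff 1 = (taylor b B).coeff 1 :=
          congrArg (fun x : F × F × F => x.2.1) h2
        have e2 : (taylor b A).coeff 2 = (taylor b B).coeff 2 :=
          congrArg (fun x : F × F × F => x.2.2) h2
        interval_cases d
        · exact e0
        · exact e1
        · exact e2
      · have hd2 : d < 2 := by simpa [he, hb] using hd
        have h2 := congrFun (congrArg Prod.snd h) ⟨b, hb⟩
        have e0 : (taylor b A).coeff 0 = (taylor b B).coeff 0 := congrArg Prod.fst h2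
        have e1 : (taylor b A).coeff 1 = (taylor b B).coeff 1 := congrArg Prod.snd h2
        interval_cases d
        · exact e0
        · exact e1
    have h2 : (∏ b : F, (X - C b) ^ (e b)) ∣ A - B := by
      apply Finset.prod_dvd_of_coprime
      · intro b _ c _ hbc
        change IsCoprime ((X - C b) ^ (e b)) ((X - C c) ^ (e c))
        exact IsCoprime.pow (isCoprime_X_sub_C_of_isUnit_sub (IsUnit.mk0 _ (sub_ne_zero.2 hbc)))
      · intro b _
        exact h1 b
    have h3 : (A - B).degree < ((2 * Fintype.card F + 1 : ℕ) : WithBot ℕ) := by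
      rw [← mem_PN]
      exact sub_mem_PN hA hB
    have hmon : (∏ b : F, (X - C b) ^ (e b)).Monic :=
      monic_prod_of_monic _ _ fun b _ => (monic_X_sub_C b).pow _
    have hsum : ∑ b : F, e b = 2 * Fintype.card F + 1 := by
      have : ∀ b : F, e b = 2 + if b = a then 1 else 0 := by
        intro b
        rw [he]
        by_cases hb : b = a <;> simp [hb]
      rw [Finset.sum_congr rfl fun b _ => this b, Finset.sum_add_distrib, Finset.sum_const,
        Finset.card_univ, smul_eq_mul, Finset.sum_ite_eq' Finset.univ a fun _ => 1]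
      simp [mul_comm]
    have h4 : (∏ b : F, (X - C b) ^ (e b)).degree =
        ((2 * Fintype.card F + 1 : ℕ) : WithBot ℕ) := by
      rw [degree_eq_natDegree hmon.ne_zero,
        natDegree_prod_of_monic _ _ fun b _ => (monic_X_sub_C b).pow _]
      congr 1
      rw [← hsum]
      refine Finset.sum_congr rfl fun b _ => ?_
      rw [natDegree_pow, natDegree_X_sub_C, mul_one]
    have h5 : A - B = 0 := by
      by_contra hne
      have h6 := degree_le_of_dvd h2 hne
      rw [h4] at h6
      exact absurd h6 (not_le.2 h3)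
    exact Subtype.ext (sub_eq_zero.1 h5)
  have hsub : Fintype.card {b : F // b ≠ a} = Fintype.card F - 1 := by
    rw [Fintype.card_subtype, Finset.filter_ne', Finset.card_erase_of_mem (Finset.mem_univ _),
      Finset.card_univ]
  have hq : 1 ≤ Fintype.card F := Fintype.card_pos
  have hcard : Fintype.card {A // A ∈ P} =
      Fintype.card ((F × F × F) × ({b : F // b ≠ a} → F × F)) := by
    rw [Fintype.card_coe, card_PN, Fintype.card_prod, Fintype.card_prod, Fintype.card_prod,
      Fintype.card_fun, Fintype.card_prod, hsub, ← pow_two, ← pow_mul, ← pow_succ', ← pow_add]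
    congr 1
    omega
  have hsurj := ((Fintype.bijective_iff_injective_and_card Ψ).2 ⟨hinj, hcard⟩).2
  obtain ⟨A, hA⟩ := hsurj (u, fun b => w b)
  exact ⟨A, A.2, congrArg Prod.fst hA, fun b hb => congrFun (congrArg Prod.snd hA) ⟨b, hb⟩⟩

open Classical in
theorem res_count (h2 : (2 : F) ≠ 0) (h3 : (3 : F) ≠ 0) (a : F) :
    Fintype.card F ^ 2 * (Fintype.card F - 1) ^ 2 *
        (Fintype.card F ^ 4 - Fintype.card F ^ 2) ^ (Fintype.card F - 1) ≤
      ((PN F (2 * Fintype.card F + 1) ×ˢ PN F (2 * Fintype.card F + 1)).filter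
        (fun p => Two a p.1 p.2 ∧ ∀ b : F, b ≠ a → ¬ Bad (X - C b) p.1 p.2)).card := by
  obtain ⟨T, hT⟩ : ∃ T : Finset ((F × F × F) × (F × F × F)), T = Finset.univ.filter
      (fun z => LTwo z.1.1 z.1.2.1 z.1.2.2 z.2.1 z.2.2.1 z.2.2.2) := ⟨_, rfl⟩
  obtain ⟨S, hS⟩ : ∃ S : Finset ((F × F) × (F × F)), S = Finset.univ.filter
      (fun z => ¬ LBad z.1.1 z.1.2 z.2.1 z.2.2) := ⟨_, rfl⟩
  have hTc : Fintype.card F ^ 2 * (Fintype.card F - 1) ^ 2 ≤ T.card := by
    rw [hT]; exact card_LTwo h2 h3
  have hSc : Fintype.card F ^ 4 - Fintype.card F ^ 2 ≤ S.card := by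
    rw [hS]; exact card_not_LBad h2 h3
  have hsub : Fintype.card {b : F // b ≠ a} = Fintype.card F - 1 := by
    rw [Fintype.card_subtype, Finset.filter_ne', Finset.card_erase_of_mem (Finset.mem_univ _),
      Finset.card_univ]
  have h1 : (T ×ˢ Fintype.piFinset (fun _ : {b : F // b ≠ a} => S)).card ≤
      ((PN F (2 * Fintype.card F + 1) ×ˢ PN F (2 * Fintype.card F + 1)).filter
        (fun p => Two a p.1 p.2 ∧ ∀ b : F, b ≠ a → ¬ Bad (X - C b) p.1 p.2)).card := by
    apply Finset.card_le_card_of_surjOn (fun p : F[X] × F[X] =>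
      ((((taylor a p.1).coeff 0, (taylor a p.1).coeff 1, (taylor a p.1).coeff 2),
        ((taylor a p.2).coeff 0, (taylor a p.2).coeff 1, (taylor a p.2).coeff 2)),
        fun b : {b : F // b ≠ a} =>
          (((taylor (b : F) p.1).coeff 0, (taylor (b : F) p.1).coeff 1),
            ((taylor (b : F) p.2).coeff 0, (taylor (b : F) p.2).coeff 1))))
    rintro ⟨z, g⟩ hg
    rw [Finset.mem_coe, Finset.mem_product, Fintype.mem_piFinset] at hg
    obtain ⟨hz, hg⟩ := hg
    obtain ⟨A, hA, hA1, hA2⟩ := rc_surj a z.1 (fun b => if hb : b ≠ a then (g ⟨b, hb⟩).1 else 0)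
    obtain ⟨B, hB, hB1, hB2⟩ := rc_surj a z.2 (fun b => if hb : b ≠ a then (g ⟨b, hb⟩).2 else 0)
    have hz' : (((taylor a A).coeff 0, (taylor a A).coeff 1, (taylor a A).coeff 2),
        ((taylor a B).coeff 0, (taylor a B).coeff 1, (taylor a B).coeff 2)) = z := by
      rw [hA1, hB1]
    have hgb : ∀ b : {b : F // b ≠ a}, (((taylor (b : F) A).coeff 0, (taylor (b : F) A).coeff 1),
        ((taylor (b : F) B).coeff 0, (taylor (b : F) B).coeff 1)) = g b := by
      intro b
      rw [hA2 b b.2, hB2 b b.2, dif_pos b.2, dif_pos b.2]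
    refine ⟨(A, B), ?_, Prod.ext hz' (funext hgb)⟩
    rw [Finset.mem_coe, Finset.mem_filter, Finset.mem_product]
    refine ⟨⟨hA, hB⟩, ?_, fun b hb hbad => ?_⟩
    · rw [hT, Finset.mem_filter] at hz
      rw [two_iff]
      have := hz.2
      rw [← hz'] at this
      exact this
    · have h4 : g ⟨b, hb⟩ ∈ S := hg ⟨b, hb⟩
      rw [hS, Finset.mem_filter] at h4
      apply h4.2
      rw [← hgb ⟨b, hb⟩]
      exact (bad_iff b A B).1 hbad
  refine le_trans ?_ h1
  rw [Finset.card_product, Fintype.card_piFinset, Finset.prod_const, Finset.card_univ, hsub]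
  exact Nat.mul_le_mul hTc (Nat.pow_le_pow_left hSc _)

end Pool.Agent.Helper97.AS3
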