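import Pool.Agent.Helper97.AS3.Equi
import Pool.Agent.Helper97.AS3.ResCount

/-!
# AS3-05 FinCount: the pairs with `I_2` exactly at `a`

`M = (∏_b (X - C b)) ^ 2 * (X - C a)`, monic of degree `2 q + 1`, `4 n + 1 ≥ 2 q + 3`. For every `(r, s)` counted by `res_count` and every quadruple `((x₀, x₁), (y₀, y₁))` with `¬ LBad` (`card_not_LBad`) there are `q ^ (4 n + 1 - (2 q + 1) - 2)` polynomials `A` with residue `r` and top coefficients `x₀`, `x₁`
(at `4 n`, `4 n - 1`) and `q ^ (6 n + 1 - (2 q + 1) - 2)` polynomials `B` (`card_data_eq` with `k = 2`). All these pairs `(A, B)` are different, belong to the box, and satisfy the conditions: `Two a`, `Bad (X - C b)` depend only on the residues modulo `M` (`(X - C a) ^ 3 ∣ M`, `(X - C b) ^ 2 ∣ M`; e.g. Taylor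
coefficients, `two_iff`, `bad_iff`), and `badInf_iff`. The number is at least `q ^ 2 (q - 1) ^ 2 (q ^ 4 - q ^ 2) ^ (q - 1) (q ^ 4 - q ^ 2) q ^ (10 n + 2 - (4 q + 6))`, which is `(q - 1) ^ 2 / q ^ 4 (1 - 1 / q ^ 2) ^ q q ^ (10 n + 2)`.
-/

set_option autoImplicit false

open Polynomial

namespace Pool.Agent.Helper97.AS3

open Pool.Agent.Helper31.AR Pool.Agent.Helper97.AS Pool.Agent.Helper97.AS2

variable {F : Type} [Field F] [Fintype F]

private theorem fc_coeff {b : F} {k : ℕ} {A r : F[X]} (h : (X - C b) ^ k ∣ A - r) :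
    ∀ d < k, (taylor b A).coeff d = (taylor b r).coeff d := by
  rw [X_sub_C_pow_dvd_iff, X_pow_dvd_iff, ← taylor_apply] at h
  intro d hd
  have := h d hd
  rw [map_sub, coeff_sub, sub_eq_zero] at this
  exact this

open Classical in
theorem fin_count (h2 : (2 : F) ≠ 0) (h3 : (3 : F) ≠ 0) {n : ℕ}
    (hn : 2 * Fintype.card F + 2 ≤ 4 * n) (a : F) :
    ((Fintype.card F : ℝ) - 1) ^ 2 / (Fintype.card F : ℝ) ^ 4 *
        (1 - 1 / (Fintype.card F : ℝ) ^ 2) ^ Fintype.card F *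
        (Fintype.card F : ℝ) ^ (10 * n + 2) ≤
      (((box0 F n).filter (fun p => Two a p.1 p.2 ∧ (∀ b : F, b ≠ a → ¬ Bad (X - C b) p.1 p.2) ∧
        ¬ BadInf n p.1 p.2)).card : ℝ) := by
  set q := Fintype.card F with hq
  have hn1 : 1 ≤ n := by omega
  obtain ⟨M, hM⟩ : ∃ M : F[X], M = (∏ b : F, (X - C b)) ^ 2 * (X - C a) := ⟨_, rfl⟩
  have hPm : (∏ b : F, (X - C b)).Monic := monic_prod_of_monic _ _ fun b _ => monic_X_sub_C b
  have hMm : M.Monic := by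
    rw [hM]
    exact (hPm.pow 2).mul (monic_X_sub_C a)
  have hMd : M.natDegree = 2 * q + 1 := by
    rw [hM, (hPm.pow 2).natDegree_mul (monic_X_sub_C a), hPm.natDegree_pow,
      natDegree_prod_of_monic _ _ fun b _ => monic_X_sub_C b, natDegree_X_sub_C]
    simp [hq]
  have hdP : ∀ b : F, (X - C b : F[X]) ∣ ∏ c : F, (X - C c) := fun b =>
    Finset.dvd_prod_of_mem (fun c : F => (X - C c : F[X])) (Finset.mem_univ b)
  have hM2 : ∀ b : F, (X - C b) ^ 2 ∣ M := by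
    intro b
    rw [hM]
    exact (pow_dvd_pow_of_dvd (hdP b) 2).mul_right _
  have hM3 : (X - C a) ^ 3 ∣ M := by
    rw [hM, pow_succ]
    exact mul_dvd_mul (pow_dvd_pow_of_dvd (hdP a) 2) dvd_rfl
  obtain ⟨R, hR⟩ : ∃ R : Finset (F[X] × F[X]), R =
      (PN F (2 * q + 1) ×ˢ PN F (2 * q + 1)).filter
        (fun p => Two a p.1 p.2 ∧ ∀ b : F, b ≠ a → ¬ Bad (X - C b) p.1 p.2) := ⟨_, rfl⟩
  obtain ⟨S, hS⟩ : ∃ S : Finset ((F × F) × (F × F)), S = Finset.univ.filter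
      (fun z => ¬ LBad z.1.1 z.1.2 z.2.1 z.2.2) := ⟨_, rfl⟩
  have hRc : q ^ 2 * (q - 1) ^ 2 * (q ^ 4 - q ^ 2) ^ (q - 1) ≤ R.card := by
    rw [hR, hq]; exact res_count h2 h3 a
  have hSc : q ^ 4 - q ^ 2 ≤ S.card := by
    rw [hS, hq]; exact card_not_LBad h2 h3
  obtain ⟨T, hT⟩ : ∃ T : Finset (F[X] × F[X]), T =
      (box0 F n).filter (fun p => Two a p.1 p.2 ∧ (∀ b : F, b ≠ a → ¬ Bad (X - C b) p.1 p.2) ∧
        ¬ BadInf n p.1 p.2) := ⟨_, rfl⟩
  rw [← hT]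
  obtain ⟨Φ, hΦ⟩ : ∃ Φ : F[X] × F[X] → (F[X] × F[X]) × ((F × F) × (F × F)), Φ = fun p =>
      ((p.1 %ₘ M, p.2 %ₘ M), ((p.1.coeff (4 * n), p.1.coeff (4 * n - 1)),
        (p.2.coeff (6 * n), p.2.coeff (6 * n - 1)))) := ⟨_, rfl⟩
  have hfib : ∀ y ∈ R ×ˢ S, q ^ (4 * n + 1 - (2 * q + 1) - 2) * q ^ (6 * n + 1 - (2 * q + 1) - 2) ≤
      (T.filter (fun p => Φ p = y)).card := by
    rintro ⟨⟨r, s⟩, ⟨⟨x0, x1⟩, ⟨y0, y1⟩⟩⟩ hy
    rw [Finset.mem_product] at hy
    obtain ⟨hrs, hz⟩ := hy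
    rw [hR, Finset.mem_filter, Finset.mem_product] at hrs
    rw [hS, Finset.mem_filter] at hz
    obtain ⟨⟨hr, hs⟩, htwo, hbad⟩ := hrs
    have hz := hz.2
    have hr' : r ∈ PN F M.natDegree := by rw [hMd]; exact hr
    have hs' : s ∈ PN F M.natDegree := by rw [hMd]; exact hs
    have cA := card_data_eq hMm (N := 4 * n + 1) (k := 2) (by rw [hMd]; omega) r hr' ![x0, x1]
    have cB := card_data_eq hMm (N := 6 * n + 1) (k := 2) (by rw [hMd]; omega) s hs' ![y0, y1]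
    rw [hMd, ← hq] at cA cB
    rw [← cA, ← cB, ← Finset.card_product]
    apply Finset.card_le_card
    rintro ⟨A, B⟩ hAB
    rw [Finset.mem_product, Finset.mem_filter, Finset.mem_filter] at hAB
    obtain ⟨⟨hA1, hA2, hA3⟩, ⟨hB1, hB2, hB3⟩⟩ := hAB
    have eA0 : A.coeff (4 * n) = x0 := by simpa using hA3 0
    have eA1 : A.coeff (4 * n - 1) = x1 := by simpa using hA3 1
    have eB0 : B.coeff (6 * n) = y0 := by simpa using hB3 0
    have eB1 : B.coeff (6 * n - 1) = y1 := by simpa using hB3 1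
    have dA : A.natDegree ≤ 4 * n := by
      have h8 : A.natDegree < 4 * n + 1 := (mem_PN_iff_natDegree (by omega)).1 hA1
      omega
    have dB : B.natDegree ≤ 6 * n := by
      have h8 : B.natDegree < 6 * n + 1 := (mem_PN_iff_natDegree (by omega)).1 hB1
      omega
    have mA : A %ₘ M = r := by
      have hsd : r %ₘ M = r := by
        rw [modByMonic_eq_self_iff hMm, degree_eq_natDegree hMm.ne_zero]
        exact (mem_PN _ _).1 hr'
      have h1 := (modByMonic_eq_zero_iff_dvd hMm).2 hA2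
      rw [sub_modByMonic, hsd, sub_eq_zero] at h1
      exact h1
    have mB : B %ₘ M = s := by
      have hsd : s %ₘ M = s := by
        rw [modByMonic_eq_self_iff hMm, degree_eq_natDegree hMm.ne_zero]
        exact (mem_PN _ _).1 hs'
      have h1 := (modByMonic_eq_zero_iff_dvd hMm).2 hB2
      rw [sub_modByMonic, hsd, sub_eq_zero] at h1
      exact h1
    rw [Finset.mem_filter, hT, Finset.mem_filter]
    refine ⟨⟨?_, ?_, ?_, ?_⟩, ?_⟩
    · exact Finset.mem_product.2 ⟨hA1, hB1⟩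
    · have tA := fc_coeff (hM3.trans hA2)
      have tB := fc_coeff (hM3.trans hB2)
      rw [two_iff] at htwo ⊢
      change LTwo ((taylor a A).coeff 0) ((taylor a A).coeff 1) ((taylor a A).coeff 2)
        ((taylor a B).coeff 0) ((taylor a B).coeff 1) ((taylor a B).coeff 2)
      rw [tA 0 (by norm_num), tA 1 (by norm_num), tA 2 (by norm_num), tB 0 (by norm_num),
        tB 1 (by norm_num), tB 2 (by norm_num)]
      exact htwo
    · intro b hb hbd
      have tA := fc_coeff ((hM2 b).trans hA2)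
      have tB := fc_coeff ((hM2 b).trans hB2)
      apply hbad b hb
      rw [bad_iff] at hbd ⊢
      change LBad ((taylor b A).coeff 0) ((taylor b A).coeff 1) ((taylor b B).coeff 0)
        ((taylor b B).coeff 1) at hbd
      rw [tA 0 (by norm_num), tA 1 (by norm_num), tB 0 (by norm_num), tB 1 (by norm_num)] at hbd
      exact hbd
    · intro hbd
      have h4 := (badInf_iff hn1 dA dB).1 hbd
      rw [eA0, eA1, eB0, eB1] at h4
      exact hz h4
    · rw [hΦ]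
      change ((A %ₘ M, B %ₘ M), ((A.coeff (4 * n), A.coeff (4 * n - 1)),
        (B.coeff (6 * n), B.coeff (6 * n - 1)))) = _
      rw [mA, mB, eA0, eA1, eB0, eB1]
  have hsum : R.card * S.card *
      (q ^ (4 * n + 1 - (2 * q + 1) - 2) * q ^ (6 * n + 1 - (2 * q + 1) - 2)) ≤ T.card := by
    calc R.card * S.card *
          (q ^ (4 * n + 1 - (2 * q + 1) - 2) * q ^ (6 * n + 1 - (2 * q + 1) - 2))
        = ∑ _y ∈ R ×ˢ S, q ^ (4 * n + 1 - (2 * q + 1) - 2) *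
            q ^ (6 * n + 1 - (2 * q + 1) - 2) := by
          rw [Finset.sum_const, Finset.card_product, smul_eq_mul]
      _ ≤ ∑ y ∈ R ×ˢ S, (T.filter (fun p => Φ p = y)).card := Finset.sum_le_sum hfib
      _ = (T.filter (fun p => Φ p ∈ R ×ˢ S)).card :=
          Finset.sum_card_fiberwise_eq_card_filter _ _ _
      _ ≤ T.card := Finset.card_filter_le _ _
  have hq1 : 1 < q := Fintype.one_lt_card
  have hfin : q ^ 2 * (q - 1) ^ 2 * (q ^ 4 - q ^ 2) ^ (q - 1) * (q ^ 4 - q ^ 2) *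
      (q ^ (4 * n + 1 - (2 * q + 1) - 2) * q ^ (6 * n + 1 - (2 * q + 1) - 2)) ≤ T.card :=
    le_trans (Nat.mul_le_mul_right _ (Nat.mul_le_mul hRc hSc)) hsum
  have h5 : (q ^ 2 : ℕ) ≤ q ^ 4 := Nat.pow_le_pow_right (by omega) (by norm_num)
  obtain ⟨u, hu⟩ : ∃ u, u = 4 * n + 1 - (2 * q + 1) - 2 := ⟨_, rfl⟩
  obtain ⟨v, hv⟩ : ∃ v, v = 6 * n + 1 - (2 * q + 1) - 2 := ⟨_, rfl⟩
  rw [← hu, ← hv] at hfin
  have h6 := (Nat.cast_le (α := ℝ)).2 hfin
  push_cast [Nat.cast_sub hq1.le, Nat.cast_sub h5] at h6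
  refine le_trans (le_of_eq ?_) h6
  have hq0 : (q : ℝ) ≠ 0 := by
    have : 0 < q := by omega
    exact_mod_cast this.ne'
  have e4 : ((q : ℝ) ^ 4 - (q : ℝ) ^ 2) ^ (q - 1) * ((q : ℝ) ^ 4 - (q : ℝ) ^ 2) =
      (1 - 1 / (q : ℝ) ^ 2) ^ q * (q : ℝ) ^ (4 * q) := by
    rw [← pow_succ, show q - 1 + 1 = q by omega, pow_mul, ← mul_pow]
    congr 1
    field_simp
  have e5 : (q : ℝ) ^ (10 * n + 2) = (q : ℝ) ^ 4 * ((q : ℝ) ^ 2 *
      (q : ℝ) ^ u * (q : ℝ) ^ v * (q : ℝ) ^ (4 * q)) := by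
    rw [← pow_add, ← pow_add, ← pow_add, ← pow_add]
    congr 1
    omega
  calc ((q : ℝ) - 1) ^ 2 / (q : ℝ) ^ 4 * (1 - 1 / (q : ℝ) ^ 2) ^ q * (q : ℝ) ^ (10 * n + 2)
      = (q : ℝ) ^ 2 * ((q : ℝ) - 1) ^ 2 * ((1 - 1 / (q : ℝ) ^ 2) ^ q * (q : ℝ) ^ (4 * q)) *
          ((q : ℝ) ^ u * (q : ℝ) ^ v) := by
        rw [e5]
        field_simp
    _ = _ := by
        rw [← e4]
        ring

end Pool.Agent.Helper97.AS3
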