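import Pool.Agent.Helper97.AS3.FinalOf
import Pool.Agent.Helper84.AS.AvgRankE

/-!
# Project AS (MP_8ac872_ag): the final theorem

`final_of` with the average of helper84 (`Helper84/AS/AvgRankE.lean`) over the pairs with `deg A ≤ 4 n + 1`, `deg B ≤ 6 n + 1`.
-/

set_option autoImplicit false

open Polynomial

namespace Pool.Agent.Helper97.AS3

open Pool.Agent.Helper31.AR Pool.Agent.Helper97.AS Pool.Agent.Helper97.AS2

theorem havg84 (F : Type) [Field F] [Fintype F] (h2 : (2 : F) ≠ 0) (h3 : (3 : F) ≠ 0)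
    (δ : ℝ) (hδ : 0 < δ) :
    ∃ n₀ : ℕ, ∀ n : ℕ, n₀ ≤ n → ∀ Q : F[X] → F[X] → ℤ[X],
      (∀ p ∈ admS F n, IsFrob (n + 1) p.1 p.2 (Q p.1 p.2)) →
      ∑ p ∈ admS F n, ((ord F (Q p.1 p.2) : ℕ) : ℝ) ≤
        (11 / 6 + δ) * (Fintype.card F : ℝ) ^ (10 * n + 4) := by
  have h : ∀ n, Pool.Agent.Helper84.AS.adm F n = admS F n := by
    intro n
    rfl
  obtain ⟨n₀, hn₀⟩ := Pool.Agent.Helper84.AS.avg_rank_eps F h2 h3 δ hδ
  refine ⟨n₀, fun n hn Q hQ => ?_⟩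
  have h1 := hn₀ n hn Q (by rw [h]; exact hQ)
  rw [h] at h1
  exact h1

open Classical in
/-- The final theorem: the average of the ranks is at most `11 / 6 + δ`, and the proportion of
rank at most `1` is at least `1 / 12 + dens F e / 4`. -/
theorem final (F : Type) [Field F] [Fintype F] (h2 : (2 : F) ≠ 0) (h3 : (3 : F) ≠ 0)
    (δ : ℝ) (hδ : 0 < δ) :
    ∃ n₀ : ℕ, ∀ n : ℕ, n₀ ≤ n → ∀ e : ℕ, e ≤ 1 → ∀ Q : F[X] → F[X] → ℤ[X],
      (∀ p ∈ fam F e n, IsFrobC (n + e) p.1 p.2 (Q p.1 p.2)) →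
      (∑ p ∈ fam F e n, ((ord F (Q p.1 p.2) : ℕ) : ℝ) ≤
          (11 / 6 + δ) * (Fintype.card F : ℝ) ^ (10 * n + 2 + 2 * e)) ∧
        (1 / 12 + dens F e / 4) * (Fintype.card F : ℝ) ^ (10 * n + 2 + 2 * e) ≤
          (((fam F e n).filter (fun p => MinF p.1 p.2 ∧ (e = 0 → Min n p.1 p.2) ∧
            dis p.1 p.2 ≠ 0 ∧ ord F (Q p.1 p.2) ≤ 1)).card : ℝ) := by
  have havg := havg84 F h2 h3
  obtain ⟨n₁, h₁⟩ := avg_rank_eps F h2 h3 δ hδ
  obtain ⟨n₂, h₂⟩ := proportion0 F h2 h3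
  obtain ⟨n₃, h₃⟩ := havg δ hδ
  obtain ⟨n₄, h₄⟩ := AS2.proportion F h2 h3 havg
  refine ⟨max (max n₁ n₂) (max n₃ n₄), fun n hn e he Q hQ => ?_⟩
  have hn1 : n₁ ≤ n := le_trans (le_trans (le_max_left _ _) (le_max_left _ _)) hn
  have hn2 : n₂ ≤ n := le_trans (le_trans (le_max_right _ _) (le_max_left _ _)) hn
  have hn3 : n₃ ≤ n := le_trans (le_trans (le_max_left _ _) (le_max_right _ _)) hn
  have hn4 : n₄ ≤ n := le_trans (le_trans (le_max_right _ _) (le_max_right _ _)) hn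
  obtain rfl | rfl : e = 0 ∨ e = 1 := by omega
  · rw [fam_zero] at hQ ⊢
    refine ⟨h₁ n hn1 Q (fun p hp => (hQ p hp).toIsFrob), ?_⟩
    have h5 := h₂ n hn2 Q hQ
    unfold dens
    rw [if_pos rfl]
    refine h5.trans ?_
    rw [Nat.cast_le]
    apply Finset.card_le_card
    intro p hp
    rw [Finset.mem_filter] at hp ⊢
    exact ⟨hp.1, hp.2.1.1, fun _ => hp.2.1, hp.2.2⟩
  · rw [fam_one] at hQ ⊢
    refine ⟨h₃ n hn3 Q (fun p hp => (hQ p hp).toIsFrob), ?_⟩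
    have h5 := h₄ n hn4 Q (fun p hp => by
      have h6 : p ∈ box F n := by
        unfold admS at hp
        exact (Finset.mem_filter.1 hp).1
      unfold box at h6
      rw [Finset.mem_product] at h6
      exact isFrobS_of_isFrobC h6.1 h6.2 (hQ p hp))
    unfold dens
    rw [if_neg one_ne_zero]
    refine h5.trans ?_
    rw [Nat.cast_le]
    apply Finset.card_le_card
    intro p hp
    rw [Finset.mem_filter] at hp ⊢
    exact ⟨hp.1, hp.2.1, fun h => absurd h one_ne_zero, hp.2.2⟩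

end Pool.Agent.Helper97.AS3
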