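import Pool.Agent.Helper97.AS3.Defs

/-!
# Definitions of the final statement (project AS, MP_8ac872_ag; no sorry)

For `e = 0, 1`: `fam F e n` is the finset of the pairs `(A, B)` with `deg A ≤ 4 n + e`, `deg B ≤ 6 n + e` which are not of the form
`(a d ^ 4, b d ^ 6)` with constants `a`, `b`: the elliptic curves of height at most `12 n + 3 e` over `F(t)`.
`dens F e` is `(1 / q) (1 - 2 / q)` for `e = 0` and `(1 - 1 / q) ^ 2` for `e = 1`.
-/

set_option autoImplicit false

open Polynomial

namespace Pool.Agent.Helper97.AS3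

open Pool.Agent.Helper31.AR Pool.Agent.Helper97.AS Pool.Agent.Helper97.AS2

variable (F : Type) [Field F] [Fintype F]

open Classical in
/-- The pairs with `deg A ≤ 4 n + e`, `deg B ≤ 6 n + e`, not of the form `(a d ^ 4, b d ^ 6)`. -/
noncomputable def fam (e n : ℕ) : Finset (F[X] × F[X]) :=
  (PN F (4 * n + e + 1) ×ˢ PN F (6 * n + e + 1)).filter (fun p => ¬ Const p.1 p.2)

/-- A lower bound for the density of the pairs with conductor of odd degree. -/
noncomputable def dens (e : ℕ) : ℝ :=
  if e = 0 then 1 / (Fintype.card F : ℝ) * (1 - 2 / (Fintype.card F : ℝ))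
  else (1 - 1 / (Fintype.card F : ℝ)) ^ 2

end Pool.Agent.Helper97.AS3
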