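import Pool.Agent.Helper97.AS3.FinalDefs
import Pool.Agent.Helper97.AS3.Count
import Pool.Agent.Helper97.AS2.Count

/-!
# The final theorem, from the average over the pairs with `deg A ≤ 4 n + 1`, `deg B ≤ 6 n + 1`
-/

set_option autoImplicit false

open Polynomial

namespace Pool.Agent.Helper97.AS3

open Pool.Agent.Helper31.AR Pool.Agent.Helper97.AS Pool.Agent.Helper97.AS2

section

variable {F : Type} [Field F] [Fintype F]

theorem fam_zero (n : ℕ) : fam F 0 n = adm F n := by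
  unfold fam adm
  rfl

theorem fam_one (n : ℕ) : fam F 1 n = admS F n := by
  unfold fam admS box
  rfl

theorem isFrobS_of_isFrobC {n : ℕ} {A B : F[X]} {Q : ℤ[X]} (hA : A ∈ PN F (4 * n + 2))
    (hB : B ∈ PN F (6 * n + 2)) (h : IsFrobC (n + 1) A B Q) : AS2.IsFrobS n A B Q := by
  have ha : A.coeff (4 * (n + 1)) = 0 := by
    apply coeff_eq_zero_of_degree_lt
    rw [mem_PN] at hA
    exact hA.trans_le (by exact_mod_cast (by omega : 4 * n + 2 ≤ 4 * (n + 1)))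
  have hb : B.coeff (6 * (n + 1)) = 0 := by
    apply coeff_eq_zero_of_degree_lt
    rw [mem_PN] at hB
    exact hB.trans_le (by exact_mod_cast (by omega : 6 * n + 2 ≤ 6 * (n + 1)))
  have hc : condInf (n + 1) A B = 2 := by
    unfold condInf
    rw [ha, hb]
    simp
  refine ⟨h.toIsFrob, fun h1 h2 => ?_, h.norm_eq⟩
  rw [h.natDegree_eq h1 h2, hc]

end

open Classical in
theorem final_of (F : Type) [Field F] [Fintype F] (h2 : (2 : F) ≠ 0) (h3 : (3 : F) ≠ 0)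
    (havg : ∀ δ : ℝ, 0 < δ → ∃ n₀ : ℕ, ∀ n : ℕ, n₀ ≤ n → ∀ Q : F[X] → F[X] → ℤ[X],
      (∀ p ∈ admS F n, IsFrob (n + 1) p.1 p.2 (Q p.1 p.2)) →
      ∑ p ∈ admS F n, ((ord F (Q p.1 p.2) : ℕ) : ℝ) ≤
        (11 / 6 + δ) * (Fintype.card F : ℝ) ^ (10 * n + 4))
    (δ : ℝ) (hδ : 0 < δ) :
    ∃ n₀ : ℕ, ∀ n : ℕ, n₀ ≤ n → ∀ e : ℕ, e ≤ 1 → ∀ Q : F[X] → F[X] → ℤ[X],
      (∀ p ∈ fam F e n, IsFrobC (n + e) p.1 p.2 (Q p.1 p.2)) →
      (∑ p ∈ fam F e n, ((ord F (Q p.1 p.2) : ℕ) : ℝ) ≤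
          (11 / 6 + δ) * (Fintype.card F : ℝ) ^ (10 * n + 2 + 2 * e)) ∧
        (1 / 12 + dens F e / 4) * (Fintype.card F : ℝ) ^ (10 * n + 2 + 2 * e) ≤
          (((fam F e n).filter (fun p => MinF p.1 p.2 ∧ dis p.1 p.2 ≠ 0 ∧
            ord F (Q p.1 p.2) ≤ 1)).card : ℝ) := by
  obtain ⟨n₁, h₁⟩ := avg_rank_eps F h2 h3 δ hδ
  obtain ⟨n₂, h₂⟩ := proportion0 F h2 h3
  obtain ⟨n₃, h₃⟩ := havg δ hδ
  obtain ⟨n₄, h₄⟩ := AS2.proportion F h2 h3 havg
  refine ⟨max (max n₁ n₂) (max n₃ n₄), fun n hn e he Q hQ => ?_⟩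
  have hn1 : n₁ ≤ n := le_trans (le_trans (le_max_left _ _) (le_max_left _ _)) hn
  have hn2 : n₂ ≤ n := le_trans (le_trans (le_max_right _ _) (le_max_left _ _)) hn
  have hn3 : n₃ ≤ n := le_trans (le_trans (le_max_left _ _) (le_max_right _ _)) hn
  have hn4 : n₄ ≤ n := le_trans (le_trans (le_max_right _ _) (le_max_right _ _)) hn
  obtain rfl | rfl : e = 0 ∨ e = 1 := by omega
  · rw [fam_zero] at hQ ⊢
    refine ⟨h₁ n hn1 Q (fun p hp => (hQ p hp).toIsFrob), ?_⟩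
    have h5 := h₂ n hn2 Q hQ
    unfold dens
    rw [if_pos rfl]
    refine h5.trans ?_
    rw [Nat.cast_le]
    apply Finset.card_le_card
    intro p hp
    rw [Finset.mem_filter] at hp ⊢
    exact ⟨hp.1, hp.2.1.1, hp.2.2⟩
  · rw [fam_one] at hQ ⊢
    refine ⟨h₃ n hn3 Q (fun p hp => (hQ p hp).toIsFrob), ?_⟩
    have h5 := h₄ n hn4 Q (fun p hp => by
      have h6 : p ∈ box F n := by
        unfold admS at hp
        exact (Finset.mem_filter.1 hp).1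
      unfold box at h6
      rw [Finset.mem_product] at h6
      exact isFrobS_of_isFrobC h6.1 h6.2 (hQ p hp))
    unfold dens
    rw [if_neg one_ne_zero]
    exact h5

end Pool.Agent.Helper97.AS3
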