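import Pool.Agent.Helper97.AS3.Defs
import Pool.Agent.Helper97.AS.RootParity
import Pool.Agent.Helper97.AS.TwistOrd
import Pool.Agent.Helper97.AS.OddOrd
import Pool.Agent.Helper97.AS2.GoodSum

/-!
# AS3-10 GoodSum: the sum over the good pairs of the full family (copy of `AS2/OddOrd.lean`, `AS2/GoodSum.lean`)

* `odd_ord_add0`: `Q.natDegree + 4 = condDeg A B + condInf N A B` is odd, all roots of absolute value `q`; `root_parity`, `ord_twist`.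
* `twist_mem_good0`: as in `AS2/GoodSum.lean`; `condInf`: `4 (c ^ 2 a) ^ 3 + 27 (c ^ 3 b) ^ 2 = c ^ 6 (4 a ^ 3 + 27 b ^ 2)`.
* `good0_subset_adm`: `Min n A B` (`n ≥ 1`) implies `¬ Const A B`.
* `sum_good0`: the permutation `p ↦ (C (c ^ 2) p.1, C (c ^ 3) p.2)` of `good0 F n`, `c` a nonsquare.
-/

set_option autoImplicit false

open Polynomial

namespace Pool.Agent.Helper97.AS3

open Pool.Agent.Helper31.AR Pool.Agent.Helper97.AS Pool.Agent.Helper97.AS2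

variable {F : Type} [Field F] [Fintype F]

theorem odd_ord_add0 (h2 : (2 : F) ≠ 0) {c : F} (hc : ¬ IsSquare c) {N : ℕ} {A B : F[X]}
    {Q Q' : ℤ[X]} (h : IsFrobC N A B Q) (h' : IsFrobC N (C (c ^ 2) * A) (C (c ^ 3) * B) Q')
    (hmin : Min N A B) (hdis : dis A B ≠ 0) (hodd : Odd (condDeg A B + condInf N A B)) :
    Odd (ord F Q + ord F Q') := by
  have h1 := root_parity Q h.toIsFrob.monic (Fintype.card F) Fintype.card_pos
    (h.norm_eq hmin hdis)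
  rw [← ord_twist h2 hc h.toIsFrob h'.toIsFrob] at h1
  have h3 : Q.rootMultiplicity (Fintype.card F : ℤ) = ord F Q := rfl
  rw [h3] at h1
  have h4 := h.natDegree_eq hmin hdis
  rw [Nat.odd_iff] at hodd ⊢
  rw [Nat.even_iff] at h1
  omega

private theorem gs0_mem {n : ℕ} {p : F[X] × F[X]} : p ∈ good0 F n ↔
    p.1 ∈ PN F (4 * n + 1) ∧ p.2 ∈ PN F (6 * n + 1) ∧ Min n p.1 p.2 ∧
      dis p.1 p.2 ≠ 0 ∧ Odd (condDeg p.1 p.2 + condInf n p.1 p.2) := by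
  classical
  unfold good0 box0
  rw [Finset.mem_filter, Finset.mem_product]
  tauto

private theorem gs0_condInf {c : F} (hc : c ≠ 0) (n : ℕ) (A B : F[X]) :
    condInf n (C (c ^ 2) * A) (C (c ^ 3) * B) = condInf n A B := by
  classical
  have h1 : 4 * (C (c ^ 2) * A).coeff (4 * n) ^ 3 + 27 * (C (c ^ 3) * B).coeff (6 * n) ^ 2 =
      c ^ 6 * (4 * A.coeff (4 * n) ^ 3 + 27 * B.coeff (6 * n) ^ 2) := by
    rw [coeff_C_mul, coeff_C_mul]
    ring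
  have h2 : (4 * (C (c ^ 2) * A).coeff (4 * n) ^ 3 + 27 * (C (c ^ 3) * B).coeff (6 * n) ^ 2 ≠ 0) ↔
      (4 * A.coeff (4 * n) ^ 3 + 27 * B.coeff (6 * n) ^ 2 ≠ 0) := by
    rw [h1, ne_eq, mul_eq_zero, not_or]
    exact ⟨fun h => h.2, fun h => ⟨pow_ne_zero 6 hc, h⟩⟩
  have h3 : ((C (c ^ 2) * A).coeff (4 * n) ≠ 0) ↔ (A.coeff (4 * n) ≠ 0) := by
    rw [coeff_C_mul, ne_eq, mul_eq_zero, not_or]
    exact ⟨fun h => h.2, fun h => ⟨pow_ne_zero 2 hc, h⟩⟩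
  unfold condInf
  by_cases h4 : 4 * A.coeff (4 * n) ^ 3 + 27 * B.coeff (6 * n) ^ 2 ≠ 0
  · rw [if_pos h4, if_pos (h2.2 h4)]
  · rw [if_neg h4, if_neg (fun h => h4 (h2.1 h))]
    by_cases h5 : A.coeff (4 * n) ≠ 0
    · rw [if_pos h5, if_pos (h3.2 h5)]
    · rw [if_neg h5, if_neg (fun h => h5 (h3.1 h))]

theorem twist_mem_good0 {c : F} (hc : c ≠ 0) {n : ℕ} {p : F[X] × F[X]} (hp : p ∈ good0 F n) :
    (C (c ^ 2) * p.1, C (c ^ 3) * p.2) ∈ good0 F n := by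
  rw [gs0_mem] at hp ⊢
  obtain ⟨h1, h2, h3, h4, h5⟩ := hp
  have hu : IsUnit (C (c ^ 6) : F[X]) := isUnit_C.2 (pow_ne_zero 6 hc).isUnit
  refine ⟨C_mul_mem_PN _ h1, C_mul_mem_PN _ h2, gs2_min hc h3, ?_, ?_⟩
  · show dis (C (c ^ 2) * p.1) (C (c ^ 3) * p.2) ≠ 0
    rw [gs_dis_twist]
    exact mul_ne_zero hu.ne_zero h4
  · show Odd (condDeg (C (c ^ 2) * p.1) (C (c ^ 3) * p.2) +
      condInf n (C (c ^ 2) * p.1) (C (c ^ 3) * p.2))
    rw [gs2_condDeg hc h4, gs0_condInf hc]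
    exact h5

theorem good0_subset_adm {n : ℕ} (hn : 1 ≤ n) : good0 F n ⊆ adm F n := by
  intro p hp
  rw [gs0_mem] at hp
  obtain ⟨h1, h2, h3, h4, _⟩ := hp
  classical
  unfold adm
  rw [Finset.mem_filter, Finset.mem_product]
  refine ⟨⟨h1, h2⟩, ?_⟩
  rintro ⟨a, b, d, hA, hB⟩
  obtain ⟨hm1, hm2⟩ := h3
  have h6 : IsUnit d := by
    by_contra hd
    apply hm1 d hd
    rw [hA, hB]
    exact ⟨dvd_mul_left _ _, dvd_mul_left _ _⟩
  have hd0 : d.natDegree = 0 := natDegree_eq_zero_of_isUnit h6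
  apply hm2
  have hA0 : p.1.natDegree = 0 := by
    rw [hA]
    refine Nat.le_zero.1 ((natDegree_C_mul_le _ _).trans ?_)
    rw [natDegree_pow, hd0, mul_zero]
  have hB0 : p.2.natDegree = 0 := by
    rw [hB]
    refine Nat.le_zero.1 ((natDegree_C_mul_le _ _).trans ?_)
    rw [natDegree_pow, hd0, mul_zero]
  omega

private theorem gs0_sum_twist {c : F} (hc : c ≠ 0) (n : ℕ) (G : F[X] × F[X] → ℕ) :
    ∑ p ∈ good0 F n, G (C (c ^ 2) * p.1, C (c ^ 3) * p.2) = ∑ p ∈ good0 F n, G p := by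
  have hc' : c⁻¹ ≠ 0 := inv_ne_zero hc
  have e2 : c ^ 2 * c⁻¹ ^ 2 = 1 := by field_simp
  have e3 : c ^ 3 * c⁻¹ ^ 3 = 1 := by field_simp
  refine Finset.sum_bij' (fun p _ => (C (c ^ 2) * p.1, C (c ^ 3) * p.2))
    (fun p _ => (C (c⁻¹ ^ 2) * p.1, C (c⁻¹ ^ 3) * p.2)) ?_ ?_ ?_ ?_ ?_
  · intro p hp
    exact twist_mem_good0 hc hp
  · intro p hp
    exact twist_mem_good0 hc' hp
  · intro p hp
    refine Prod.ext ?_ ?_
    · show C (c⁻¹ ^ 2) * (C (c ^ 2) * p.1) = p.1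
      rw [← mul_assoc, ← C_mul, mul_comm, mul_comm (c⁻¹ ^ 2), e2, C_1, mul_one]
    · show C (c⁻¹ ^ 3) * (C (c ^ 3) * p.2) = p.2
      rw [← mul_assoc, ← C_mul, mul_comm, mul_comm (c⁻¹ ^ 3), e3, C_1, mul_one]
  · intro p hp
    refine Prod.ext ?_ ?_
    · show C (c ^ 2) * (C (c⁻¹ ^ 2) * p.1) = p.1
      rw [← mul_assoc, ← C_mul, e2, C_1, one_mul]
    · show C (c ^ 3) * (C (c⁻¹ ^ 3) * p.2) = p.2
      rw [← mul_assoc, ← C_mul, e3, C_1, one_mul]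
  · intro p _
    rfl

theorem sum_good0 (h2 : (2 : F) ≠ 0) {n : ℕ} (hn : 1 ≤ n) (Q : F[X] → F[X] → ℤ[X])
    (hQ : ∀ p ∈ adm F n, IsFrobC n p.1 p.2 (Q p.1 p.2)) :
    5 * (good0 F n).card ≤ 2 * ∑ p ∈ good0 F n, fr (ord F (Q p.1 p.2)) := by
  have hchar : ringChar F ≠ 2 := by
    intro h
    apply h2
    have := ringChar.Nat.cast_ringChar (R := F)
    rw [h] at this
    exact_mod_cast this
  obtain ⟨c, hc⟩ := FiniteField.exists_nonsquare hchar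
  have hc0 : c ≠ 0 := by
    rintro rfl
    exact hc ⟨0, by simp⟩
  have h := gs0_sum_twist hc0 n (fun p => fr (ord F (Q p.1 p.2)))
  have h1 : 2 * ∑ p ∈ good0 F n, fr (ord F (Q p.1 p.2)) =
      ∑ p ∈ good0 F n, (fr (ord F (Q p.1 p.2)) +
        fr (ord F (Q (C (c ^ 2) * p.1) (C (c ^ 3) * p.2)))) := by
    rw [Finset.sum_add_distrib, h, two_mul]
  rw [h1, mul_comm, ← smul_eq_mul, ← Finset.sum_const]
  refine Finset.sum_le_sum ?_
  intro p hp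
  have hp' := twist_mem_good0 hc0 hp
  have hq := hQ p (good0_subset_adm hn hp)
  have hq' := hQ _ (good0_subset_adm hn hp')
  have hg := gs0_mem.1 hp
  exact fr_add (odd_ord_add0 h2 hc hq hq' hg.2.2.1 hg.2.2.2.1 hg.2.2.2.2)

end Pool.Agent.Helper97.AS3
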